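import Pool.Agent.HolMom.Core
import Pool.Agent.Lib.ZetaConv

/-!
# Holomorphic moments of zeta on the critical line
-/

set_option autoImplicit false

open Complex Set Metric MeasureTheory Filter Topology Polynomial
open Pool.Agent.Lib.ZetaLine Pool.Agent.Lib.ZetaConv

namespace Pool.Agent.HolMom

/-! ### Polynomials -/

lemma poly_upper (P : ℂ[X]) : ∃ K : ℝ, 1 ≤ K ∧ ∀ z : ℂ,
    ‖P.eval z‖ ≤ K * (1 + ‖z‖) ^ P.natDegree := by
  have h0 : 0 ≤ ∑ i ∈ Finset.range (P.natDegree + 1), ‖P.coeff i‖ :=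
    Finset.sum_nonneg fun i _ => norm_nonneg _
  refine ⟨1 + ∑ i ∈ Finset.range (P.natDegree + 1), ‖P.coeff i‖, by linarith, fun z => ?_⟩
  rw [Polynomial.eval_eq_sum_range]
  have h1 : ‖∑ i ∈ Finset.range (P.natDegree + 1), P.coeff i * z ^ i‖ ≤
      ∑ i ∈ Finset.range (P.natDegree + 1), ‖P.coeff i‖ * (1 + ‖z‖) ^ P.natDegree := by
    refine norm_sum_le_of_le _ fun i hi => ?_
    rw [norm_mul, norm_pow]
    gcongr
    have h2 : ‖z‖ ^ i ≤ (1 + ‖z‖) ^ i := by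
      gcongr
      linarith
    refine h2.trans (pow_le_pow_right₀ (by linarith [norm_nonneg z]) ?_)
    exact Nat.lt_succ_iff.1 (Finset.mem_range.1 hi)
  rw [← Finset.sum_mul] at h1
  have h3 : 0 ≤ (1 + ‖z‖) ^ P.natDegree := by positivity
  nlinarith

lemma pow_le_exp_sqrt (d : ℕ) {x : ℝ} (hx : 0 ≤ x) :
    (1 + x) ^ d ≤ ((2 * d).factorial * Real.exp 1) * Real.exp (Real.sqrt x) := by
  set y := Real.sqrt x with hy
  have hy0 : 0 ≤ y := Real.sqrt_nonneg x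
  have hx2 : x = y ^ 2 := (Real.sq_sqrt hx).symm
  have h1 : (1 + x) ^ d ≤ (1 + y) ^ (2 * d) := by
    rw [pow_mul]
    apply pow_le_pow_left₀ (by positivity)
    rw [hx2]
    nlinarith
  have h2 := Real.pow_div_factorial_le_exp (1 + y) (by positivity) (2 * d)
  rw [div_le_iff₀ (by positivity), Real.exp_add] at h2
  refine h1.trans (h2.trans (le_of_eq ?_))
  ring

/-- Growth of order less than one. -/
def Grow (Φ : ℂ → ℂ) (K : ℝ) : Prop := ∀ z : ℂ, ‖Φ z‖ ≤ K * Real.exp (Real.sqrt ‖z‖)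

lemma Grow.mono {Φ : ℂ → ℂ} {K K' : ℝ} (h : Grow Φ K) (hK : K ≤ K') : Grow Φ K' := by
  intro z
  refine (h z).trans ?_
  gcongr

lemma poly_grow (P : ℂ[X]) : ∃ K : ℝ, Grow (fun z => P.eval z) K := by
  obtain ⟨K, hK, h⟩ := poly_upper P
  refine ⟨K * ((2 * P.natDegree).factorial * Real.exp 1), fun z => ?_⟩
  refine (h z).trans ?_
  rw [mul_assoc]
  exact mul_le_mul_of_nonneg_left (pow_le_exp_sqrt _ (norm_nonneg z)) (by linarith)

lemma entire_lip {Φ : ℂ → ℂ} (hΦ : Differentiable ℂ Φ) (C : ℝ) (hC : 1 ≤ C) :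
    ∃ K : ℝ, 1 ≤ K ∧ ∀ z : ℂ, ‖z‖ ≤ C → ‖Φ z - Φ 1‖ ≤ K * ‖z - 1‖ := by
  have hcont : Continuous (deriv Φ) := (hΦ.contDiff (n := 1)).continuous_deriv le_rfl
  obtain ⟨D, hD⟩ := (isCompact_closedBall (0 : ℂ) C).exists_bound_of_continuousOn
    hcont.continuousOn
  refine ⟨1 + |D|, by linarith [abs_nonneg D], fun z hz => ?_⟩
  have h1 := (convex_closedBall (0 : ℂ) C).norm_image_sub_le_of_norm_deriv_le (f := Φ) (x := 1)
    (y := z) (C := 1 + |D|) (fun x _ => hΦ.differentiableAt)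
    (fun x hx => (hD x hx).trans (by linarith [le_abs_self D])) (by simpa using hC)
    (by simpa using hz)
  exact h1

/-! ### Zeta -/

lemma norm_zeta_sub_one_le : ∃ C : ℝ, 1 ≤ C ∧ ∀ s : ℂ, 2 ≤ s.re →
    ‖riemannZeta s - 1‖ ≤ C * Real.exp (-(s.re - 2) / 2) := by
  have hsumm : Summable fun n : ℕ => (((n + 1 : ℕ) : ℝ) + 1) ^ (-(1 : ℝ) - 1) :=
    (summable_nat_add_iff 1).2 (Pool.Agent.Lib.ZetaCrude.summable_rpow_aux one_pos)
  have hT : 0 ≤ ∑' n : ℕ, (((n + 1 : ℕ) : ℝ) + 1) ^ (-(1 : ℝ) - 1) :=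
    tsum_nonneg fun n => by positivity
  refine ⟨1 + ∑' n : ℕ, (((n + 1 : ℕ) : ℝ) + 1) ^ (-(1 : ℝ) - 1), by linarith, ?_⟩
  intro s hs
  have hz := zeta_eq_tsum_one_div_nat_add_one_cpow (s := s) (by linarith)
  have hs1 : Summable fun n : ℕ => 1 / ((n : ℂ) + 1) ^ s := by
    have := Complex.summable_one_div_nat_cpow.mpr (show 1 < s.re by linarith)
    have h2 := (summable_nat_add_iff 1).mpr this
    simpa using h2
  rw [hz, hs1.tsum_eq_zero_add]
  simp only [Nat.cast_zero, zero_add, one_cpow, div_one, add_sub_cancel_left]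
  have he : ∀ n : ℕ, ‖1 / (((n + 1 : ℕ) : ℂ) + 1) ^ s‖ ≤
      (((n + 1 : ℕ) : ℝ) + 1) ^ (-(1 : ℝ) - 1) * Real.exp (-(s.re - 2) / 2) := by
    intro n
    have h1 : (((n + 1 : ℕ) : ℂ) + 1) = ((((n + 1 : ℕ) : ℝ) + 1 : ℝ) : ℂ) := by push_cast; rfl
    have h2 : (2 : ℝ) ≤ ((n + 1 : ℕ) : ℝ) + 1 := by
      push_cast
      have : (0 : ℝ) ≤ n := Nat.cast_nonneg n
      linarith
    rw [h1, norm_div, norm_one, norm_cpow_eq_rpow_re_of_pos (by positivity), one_div,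
      ← Real.rpow_neg (by positivity)]
    have h3 : -s.re = (-(1 : ℝ) - 1) + -(s.re - 2) := by ring
    rw [h3, Real.rpow_add (by positivity)]
    gcongr
    rw [Real.rpow_neg (by positivity), neg_div, Real.exp_neg]
    gcongr
    have h4 : Real.exp ((s.re - 2) / 2) = Real.exp (1 / 2) ^ (s.re - 2) := by
      rw [← Real.exp_mul]
      ring_nf
    rw [h4]
    have h5 : Real.exp (1 / 2) ≤ 2 := by
      have h6 : Real.exp (1 / 2) ^ 2 = Real.exp 1 := by
        rw [← Real.exp_nat_mul]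
        norm_num
      have h7 := Real.exp_one_lt_d9
      nlinarith [Real.exp_pos (1 / 2)]
    exact Real.rpow_le_rpow (by positivity) (h5.trans h2) (by linarith)
  have h1 := tsum_of_norm_bounded (hsumm.mul_right _).hasSum he
  rw [tsum_mul_right] at h1
  refine h1.trans ?_
  have := Real.exp_pos (-(s.re - 2) / 2)
  nlinarith

/-- The function `Φ(ζ(s)) - Φ(1)`. -/
noncomputable def FE (Φ : ℂ → ℂ) (s : ℂ) : ℂ := Φ (riemannZeta s) - Φ 1

lemma FE_diff {Φ : ℂ → ℂ} (hΦ : Differentiable ℂ Φ) {s : ℂ} (hs : 0 < s.im) :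
    DifferentiableAt ℂ (FE Φ) s := by
  have h1 : DifferentiableAt ℂ riemannZeta s := by
    apply differentiableAt_riemannZeta
    rintro rfl
    simp at hs
  unfold FE
  have h2 : DifferentiableAt ℂ (fun s => Φ (riemannZeta s)) s :=
    (hΦ (riemannZeta s)).comp s h1
  exact h2.sub_const _

lemma zeta_line_cont : Continuous fun t : ℝ => riemannZeta (1 / 2 + t * I) := by
  rw [continuous_iff_continuousAt]
  intro t
  have h1 : ContinuousAt riemannZeta (1 / 2 + t * I) := by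
    apply (differentiableAt_riemannZeta _).continuousAt
    intro h
    have := congrArg Complex.re h
    simp at this
  exact ContinuousAt.comp (f := fun t : ℝ => (1 / 2 + t * I : ℂ)) h1 (by fun_prop)

lemma FE_line_cont {Φ : ℂ → ℂ} (hΦ : Differentiable ℂ Φ) :
    Continuous fun t : ℝ => FE Φ (1 / 2 + t * I) := by
  unfold FE
  exact (hΦ.continuous.comp zeta_line_cont).sub continuous_const

lemma FE_base {Φ : ℂ → ℂ} (hΦ : Differentiable ℂ Φ) {K : ℝ} (hK : Grow Φ K) :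
    ∃ T₀ C : ℝ, Hyp (FE Φ) g1 T₀ C := by
  obtain ⟨C₁, T₁, hC₁, hT₁, h₁⟩ := boundOn_crude
  obtain ⟨C₂, hC₂, h₂⟩ := Pool.Agent.Lib.ZetaCrude.norm_zeta_le_of_two_le
  obtain ⟨C₃, hC₃, h₃⟩ := norm_zeta_sub_one_le
  obtain ⟨L, hL, hL'⟩ := entire_lip hΦ C₂ hC₂
  have hK' := hK.mono (le_abs_self K)
  have e0 : 0 ≤ |K| * Real.exp (4 * C₁) := by positivity
  have e1 : 0 ≤ L * C₃ := by positivity
  have e2 := norm_nonneg (Φ 1)
  refine ⟨T₁, 1 + |K| * Real.exp (4 * C₁) + ‖Φ 1‖ + L * C₃, fun s hs => FE_diff hΦ hs, hT₁,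
    by linarith, fun t ht => Real.one_le_exp (by positivity), ?_, ?_⟩
  · intro s hs ht
    have ht1 : 1 ≤ s.im := hT₁.trans ht
    have h4 := h₁ s (by linarith) ht
    rw [Real.rpow_one] at h4
    have h5 := hK' (riemannZeta s)
    have h6 : Real.sqrt ‖riemannZeta s‖ ≤ 4 * C₁ + s.im / 16 := by
      apply Real.sqrt_le_iff.2
      constructor
      · positivity
      · nlinarith [sq_nonneg (4 * C₁ - s.im / 16)]
    have h7 : Real.exp (Real.sqrt ‖riemannZeta s‖) ≤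
        Real.exp (4 * C₁) * Real.exp (s.im / 16) := by
      rw [← Real.exp_add]
      exact Real.exp_le_exp.2 h6
    have h8 : 1 ≤ Real.exp (s.im / 16) := Real.one_le_exp (by positivity)
    unfold FE g1
    refine (norm_sub_le _ _).trans ?_
    have h9 : |K| * Real.exp (Real.sqrt ‖riemannZeta s‖) ≤
        |K| * Real.exp (4 * C₁) * Real.exp (s.im / 16) := by
      rw [mul_assoc]
      exact mul_le_mul_of_nonneg_left h7 (abs_nonneg K)
    nlinarith
  · intro s hs ht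
    have h4 := hL' (riemannZeta s) (h₂ s hs)
    have h5 := h₃ s hs
    have h6 := Real.exp_pos (-(s.re - 2) / 2)
    unfold FE
    refine h4.trans ?_
    have h7 : L * ‖riemannZeta s - 1‖ ≤ L * C₃ * Real.exp (-(s.re - 2) / 2) := by
      rw [mul_assoc]
      gcongr
    nlinarith

/-- Double exponential growth. -/
def Grow2 (Φ : ℂ → ℂ) (K : ℝ) : Prop :=
  ∀ z : ℂ, ‖Φ z‖ ≤ K * Real.exp (Real.exp (Real.sqrt ‖z‖))

lemma FE_base2 {Φ : ℂ → ℂ} (hΦ : Differentiable ℂ Φ) {K : ℝ} (hK : Grow2 Φ K) :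
    ∃ T₀ C : ℝ, Hyp (FE Φ) g2 T₀ C := by
  obtain ⟨C₁, T₁, hC₁, hT₁, h₁⟩ := boundOn_crude
  obtain ⟨C₂, hC₂, h₂⟩ := Pool.Agent.Lib.ZetaCrude.norm_zeta_le_of_two_le
  obtain ⟨C₃, hC₃, h₃⟩ := norm_zeta_sub_one_le
  obtain ⟨L, hL, hL'⟩ := entire_lip hΦ C₂ hC₂
  obtain ⟨a, ha⟩ : ∃ a : ℝ, a = Real.exp (8 * C₁) := ⟨_, rfl⟩
  have e0 : 0 ≤ |K| * Real.exp (a ^ 2) := by positivity
  have e1 : 0 ≤ L * C₃ := by positivity
  have e2 := norm_nonneg (Φ 1)
  refine ⟨T₁, 1 + |K| * Real.exp (a ^ 2) + ‖Φ 1‖ + L * C₃, fun s hs => FE_diff hΦ hs, hT₁,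
    by linarith, fun t ht => Real.one_le_exp (Real.exp_pos _).le, ?_, ?_⟩
  · intro s hs ht
    have ht1 : 1 ≤ s.im := hT₁.trans ht
    have h4 := h₁ s (by linarith) ht
    rw [Real.rpow_one] at h4
    have h6 : Real.sqrt ‖riemannZeta s‖ ≤ 8 * C₁ + s.im / 32 := by
      apply Real.sqrt_le_iff.2
      constructor
      · positivity
      · nlinarith [sq_nonneg (8 * C₁ - s.im / 32)]
    have h7 : Real.exp (Real.sqrt ‖riemannZeta s‖) ≤ a ^ 2 + Real.exp (s.im / 16) := by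
      have f1 : Real.exp (s.im / 16) = Real.exp (s.im / 32) ^ 2 := by
        rw [← Real.exp_nat_mul]
        congr 1
        push_cast
        ring
      have f2 : Real.exp (8 * C₁ + s.im / 32) = a * Real.exp (s.im / 32) := by
        rw [Real.exp_add, ha]
      have f3 := Real.exp_le_exp.2 h6
      rw [f2] at f3
      rw [f1]
      nlinarith [sq_nonneg (a - Real.exp (s.im / 32)), sq_nonneg a,
        sq_nonneg (Real.exp (s.im / 32))]
    have h8 : 1 ≤ g2 s.im := Real.one_le_exp (Real.exp_pos _).le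
    have h9 : ‖Φ (riemannZeta s)‖ ≤ |K| * Real.exp (a ^ 2) * g2 s.im := by
      refine (hK (riemannZeta s)).trans ?_
      calc K * Real.exp (Real.exp (Real.sqrt ‖riemannZeta s‖))
          ≤ |K| * Real.exp (Real.exp (Real.sqrt ‖riemannZeta s‖)) :=
            mul_le_mul_of_nonneg_right (le_abs_self K) (Real.exp_pos _).le
        _ ≤ |K| * Real.exp (a ^ 2 + Real.exp (s.im / 16)) :=
            mul_le_mul_of_nonneg_left (Real.exp_le_exp.2 h7) (abs_nonneg K)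
        _ = |K| * Real.exp (a ^ 2) * g2 s.im := by rw [Real.exp_add, g2]; ring
    unfold FE
    refine (norm_sub_le _ _).trans ?_
    nlinarith
  · intro s hs ht
    have h4 := hL' (riemannZeta s) (h₂ s hs)
    have h5 := h₃ s hs
    have h6 := Real.exp_pos (-(s.re - 2) / 2)
    unfold FE
    refine h4.trans ?_
    have h7 : L * ‖riemannZeta s - 1‖ ≤ L * C₃ * Real.exp (-(s.re - 2) / 2) := by
      rw [mul_assoc]
      gcongr
    nlinarith

lemma int_split {Φ : ℂ → ℂ} (hΦ : Differentiable ℂ Φ) (a b : ℝ) :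
    (∫ t in (0 : ℝ)..b, FE Φ (1 / 2 + t * I)) =
    (∫ t in (0 : ℝ)..a, FE Φ (1 / 2 + t * I)) + ∫ t in a..b, FE Φ (1 / 2 + t * I) :=
  (intervalIntegral.integral_add_adjacent_intervals
    ((FE_line_cont hΦ).intervalIntegrable _ _) ((FE_line_cont hΦ).intervalIntegrable _ _)).symm

/-- The one-sided bound from `T₀` on. -/
lemma line_of_mean {Φ : ℂ → ℂ} (hΦ : Differentiable ℂ Φ) {ω : ℂ} (hω : ‖ω‖ = 1) {B C : ℝ}
    (hB : 0 ≤ B) (h : ∀ T : ℝ, 0 ≤ T →
      (ω * ∫ t in (0 : ℝ)..T, FE Φ (1 / 2 + t * I)).re ≤ C * (1 + T) ^ B) {T₀ : ℝ}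
    (hT₀ : 1 ≤ T₀) :
    Line (FE Φ) ω B T₀ (|C| * 2 ^ B + ‖∫ t in (0 : ℝ)..T₀, FE Φ (1 / 2 + t * I)‖) := by
  refine ⟨hω, hB, fun T hT => ?_⟩
  have e1 := h T (by linarith)
  rw [int_split hΦ T₀ T, mul_add, Complex.add_re] at e1
  set D : ℝ := ‖∫ t in (0 : ℝ)..T₀, FE Φ (1 / 2 + t * I)‖ with hD
  have hD0 : 0 ≤ D := norm_nonneg _
  have e2 : -(ω * ∫ t in (0 : ℝ)..T₀, FE Φ (1 / 2 + t * I)).re ≤ D := by
    refine (neg_le_abs _).trans ((Complex.abs_re_le_norm _).trans ?_)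
    rw [norm_mul, hω, one_mul]
  have e3 : C * (1 + T) ^ B ≤ |C| * 2 ^ B * T ^ B := by
    have e5 : (1 + T) ^ B ≤ (2 * T) ^ B :=
      Real.rpow_le_rpow (by linarith) (by linarith) hB
    have e6 : 0 ≤ (1 + T) ^ B := Real.rpow_nonneg (by linarith) B
    calc C * (1 + T) ^ B ≤ |C| * (1 + T) ^ B :=
          mul_le_mul_of_nonneg_right (le_abs_self C) e6
      _ ≤ |C| * (2 * T) ^ B := mul_le_mul_of_nonneg_left e5 (abs_nonneg C)
      _ = _ := by rw [Real.mul_rpow (by norm_num) (by linarith)]; ring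
  have e4 : 1 ≤ T ^ B := Real.one_le_rpow (by linarith) hB
  nlinarith

/-- From the one-sided bound to the growth of `Φ(ζ(s))` to the right of the critical line. -/
theorem growth_of_mean {Φ : ℂ → ℂ} (hΦ : Differentiable ℂ Φ) {K : ℝ} (hK : Grow Φ K) {ω : ℂ}
    (hω : ‖ω‖ = 1) {B C : ℝ} (hB : 0 ≤ B) (h : ∀ T : ℝ, 0 ≤ T →
      (ω * ∫ t in (0 : ℝ)..T, FE Φ (1 / 2 + t * I)).re ≤ C * (1 + T) ^ B) {d : ℝ} (hd : 0 < d)
    (hd1 : d < 1) :
    ∃ K T₁ : ℝ, 1 ≤ K ∧ 1 ≤ T₁ ∧ ∀ s : ℂ, 1 / 2 + d ≤ s.re → T₁ ≤ s.im →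
      ‖Φ (riemannZeta s)‖ ≤ K * s.im ^ B := by
  obtain ⟨T₀, C₀, hyp⟩ := FE_base hΦ hK
  obtain ⟨K₁, T₁, hK₁, hT₁, hm⟩ := main hyp (line_of_mean hΦ hω hB h hyp.hT₀) hd hd1
  have hC₀ := hyp.hC
  have e0 := norm_nonneg (Φ 1)
  refine ⟨K₁ + C₀ + ‖Φ 1‖, max T₀ T₁, by linarith, hT₁.trans (le_max_right _ _), ?_⟩
  intro s hs ht
  have ht0 : T₀ ≤ s.im := (le_max_left _ _).trans ht
  have ht1 : T₁ ≤ s.im := (le_max_right _ _).trans ht
  have hsB : 1 ≤ s.im ^ B := Real.one_le_rpow (hT₁.trans ht1) hB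
  have e1 : ‖FE Φ s‖ ≤ (K₁ + C₀) * s.im ^ B := by
    by_cases hs2 : 2 ≤ s.re
    · refine (hyp.right s hs2 ht0).trans ?_
      have e2 : Real.exp (-(s.re - 2) / 2) ≤ 1 := by
        rw [Real.exp_le_one_iff]
        linarith
      nlinarith
    · push Not at hs2
      refine (hm s hs hs2.le ht1).trans ?_
      nlinarith
  have e2 : Φ (riemannZeta s) = FE Φ s + Φ 1 := by
    unfold FE
    ring
  rw [e2]
  refine (norm_add_le _ _).trans ?_
  nlinarith

/-- The same from a two-sided bound, for `Φ` of double exponential growth. -/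
theorem growth_of_mean2 {Φ : ℂ → ℂ} (hΦ : Differentiable ℂ Φ) {K : ℝ} (hK : Grow2 Φ K)
    {B C : ℝ} (hB : 0 ≤ B) (h : ∀ T : ℝ, 0 ≤ T →
      ‖∫ t in (0 : ℝ)..T, FE Φ (1 / 2 + t * I)‖ ≤ C * (1 + T) ^ B) {d : ℝ} (hd : 0 < d)
    (hd1 : d < 1) :
    ∃ K T₁ : ℝ, 1 ≤ K ∧ 1 ≤ T₁ ∧ ∀ s : ℂ, 1 / 2 + d ≤ s.re → T₁ ≤ s.im →
      ‖Φ (riemannZeta s)‖ ≤ K * s.im ^ B := by
  obtain ⟨T₀, C₀, hyp⟩ := FE_base2 hΦ hK
  have hT₀ := hyp.hT₀
  obtain ⟨K₁, T₁, hK₁, hT₁, hm⟩ := main2 hyp hB (D := |C| * 2 ^ B +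
      ‖∫ t in (0 : ℝ)..T₀, FE Φ (1 / 2 + t * I)‖) (by
      intro T hT
      have e1 := h T (by linarith)
      set D : ℝ := ‖∫ t in (0 : ℝ)..T₀, FE Φ (1 / 2 + t * I)‖ with hD
      have hD0 : 0 ≤ D := norm_nonneg _
      have e2 : ∫ t in T₀..T, FE Φ (1 / 2 + t * I) =
          (∫ t in (0 : ℝ)..T, FE Φ (1 / 2 + t * I)) -
            ∫ t in (0 : ℝ)..T₀, FE Φ (1 / 2 + t * I) := by
        rw [int_split hΦ T₀ T]
        ring
      have e3 : C * (1 + T) ^ B ≤ |C| * 2 ^ B * T ^ B := by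
        have e5 : (1 + T) ^ B ≤ (2 * T) ^ B :=
          Real.rpow_le_rpow (by linarith) (by linarith) hB
        have e6 : 0 ≤ (1 + T) ^ B := Real.rpow_nonneg (by linarith) B
        calc C * (1 + T) ^ B ≤ |C| * (1 + T) ^ B :=
              mul_le_mul_of_nonneg_right (le_abs_self C) e6
          _ ≤ |C| * (2 * T) ^ B := mul_le_mul_of_nonneg_left e5 (abs_nonneg C)
          _ = _ := by rw [Real.mul_rpow (by norm_num) (by linarith)]; ring
      have e4 : 1 ≤ T ^ B := Real.one_le_rpow (by linarith) hB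
      rw [e2]
      refine (norm_sub_le _ _).trans ?_
      rw [← hD]
      nlinarith) hd hd1
  have hC₀ := hyp.hC
  have e0 := norm_nonneg (Φ 1)
  refine ⟨K₁ + C₀ + ‖Φ 1‖, max T₀ T₁, by linarith, hT₁.trans (le_max_right _ _), ?_⟩
  intro s hs ht
  have ht0 : T₀ ≤ s.im := (le_max_left _ _).trans ht
  have ht1 : T₁ ≤ s.im := (le_max_right _ _).trans ht
  have hsB : 1 ≤ s.im ^ B := Real.one_le_rpow (hT₁.trans ht1) hB
  have e1 : ‖FE Φ s‖ ≤ (K₁ + C₀) * s.im ^ B := by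
    by_cases hs2 : 2 ≤ s.re
    · refine (hyp.right s hs2 ht0).trans ?_
      have e2 : Real.exp (-(s.re - 2) / 2) ≤ 1 := by
        rw [Real.exp_le_one_iff]
        linarith
      nlinarith
    · push Not at hs2
      refine (hm s hs hs2.le ht1).trans ?_
      nlinarith
  have e2 : Φ (riemannZeta s) = FE Φ s + Φ 1 := by
    unfold FE
    ring
  rw [e2]
  refine (norm_add_le _ _).trans ?_
  nlinarith

/-! ### From the growth of zeta to the moments -/

lemma strip_bound {B : ℝ} (hB : 0 ≤ B) (h : LineB B) : ∃ C T₁ : ℝ, 1 ≤ C ∧ 1 ≤ T₁ ∧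
    ∀ s : ℂ, 1 / 2 ≤ s.re → s.re ≤ 2 → T₁ ≤ s.im → ‖riemannZeta s‖ ≤ C * s.im ^ B := by
  obtain ⟨C₀, T₀, hC₀, hT₀, h₀⟩ := h
  obtain ⟨C₁, T₁, hC₁, hT₁, h₁⟩ := boundOn_crude
  obtain ⟨C₂, hC₂, h₂⟩ := Pool.Agent.Lib.ZetaCrude.norm_zeta_le_of_two_le
  have h2B : (1 : ℝ) ≤ 2 ^ B := Real.one_le_rpow (by norm_num) hB
  set K : ℝ := C₀ * 2 ^ B + C₂ + 2 * C₁ with hK
  have hK1 : 1 ≤ K := by nlinarith
  have hexp1 : 1 ≤ Real.exp ((2 - 1 / 2 : ℝ) ^ 2) := Real.one_le_exp (by positivity)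
  refine ⟨K * Real.exp ((2 - 1 / 2 : ℝ) ^ 2), 2 * T₀ + 2 * T₁, by nlinarith, by linarith, ?_⟩
  intro s hs1 hs2 ht
  set T : ℝ := s.im with hT
  have hT1 : 1 ≤ T := by linarith
  have hTB : 1 ≤ T ^ B := Real.one_le_rpow hT1 hB
  have key := gauss_max (a := 1 / 2) (b := 2) (κ := 0) (T := T) (Y := T / 2)
    (M := K * T ^ B) (by norm_num) (by linarith) (by linarith) (L := 0) (by
      intro z hz1 hz2 hz3 hz4
      rw [zero_mul, zero_mul, Real.exp_zero, mul_one]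
      have e1 := abs_le.1 hz3
      have e2 : z.im ≤ 2 * T := by linarith [e1.2]
      have e3 : T / 2 ≤ z.im := by linarith [e1.1]
      have e4 : Real.exp (-(z.im - T) ^ 2) ≤ 1 := by
        rw [Real.exp_le_one_iff]
        nlinarith [sq_nonneg (z.im - T)]
      have e5 : 0 < Real.exp (-(z.im - T) ^ 2) := Real.exp_pos _
      have e6 : z.im ^ B ≤ 2 ^ B * T ^ B := by
        rw [← Real.mul_rpow (by norm_num) (by linarith)]
        exact Real.rpow_le_rpow (by linarith) e2 hB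
      have hn := norm_nonneg (riemannZeta z)
      rcases hz4 with hz4 | hz4 | hz4
      · have e7 := h₀ z.im (by linarith)
        have e8 : (((1 / 2 : ℝ) : ℂ) + z.im * I) = z := by
          rw [← hz4]
          exact Complex.re_add_im z
        rw [e8] at e7
        have e9 : ‖riemannZeta z‖ ≤ C₀ * 2 ^ B * T ^ B := by
          refine e7.trans ?_
          rw [mul_assoc]
          gcongr
        have e10 : 0 ≤ (C₂ + 2 * C₁) * T ^ B := by positivity
        have e11 : ‖riemannZeta z‖ * Real.exp (-(z.im - T) ^ 2) ≤ ‖riemannZeta z‖ := by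
          nlinarith
        rw [hK]
        nlinarith
      · have e7 := h₂ z hz4.ge
        have e11 : ‖riemannZeta z‖ * Real.exp (-(z.im - T) ^ 2) ≤ ‖riemannZeta z‖ := by
          nlinarith
        have e12 : C₂ ≤ K := by nlinarith
        nlinarith
      · have e7 := h₁ z (by linarith) (by linarith)
        rw [Real.rpow_one] at e7
        have e8 : (z.im - T) ^ 2 = T ^ 2 / 4 := by
          rw [← sq_abs, hz4]
          ring
        rw [e8]
        have e9 : T ≤ Real.exp (T ^ 2 / 4) := by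
          have := Real.add_one_le_exp (T ^ 2 / 4)
          nlinarith [sq_nonneg (T / 2 - 1)]
        have e10 : T * Real.exp (-(T ^ 2 / 4)) ≤ 1 := by
          rw [Real.exp_neg, ← div_eq_mul_inv, div_le_one (Real.exp_pos _)]
          exact e9
        have e11 := Real.exp_pos (-(T ^ 2 / 4))
        have e12 : ‖riemannZeta z‖ * Real.exp (-(T ^ 2 / 4)) ≤
            C₁ * (2 * T) * Real.exp (-(T ^ 2 / 4)) := by
          gcongr
          refine e7.trans ?_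
          gcongr
        have e13 : C₁ * (2 * T) * Real.exp (-(T ^ 2 / 4)) ≤ 2 * C₁ := by
          have : C₁ * (2 * T) * Real.exp (-(T ^ 2 / 4)) =
            2 * C₁ * (T * Real.exp (-(T ^ 2 / 4))) := by ring
          rw [this]
          nlinarith
        have e14 : 2 * C₁ ≤ K := by nlinarith
        nlinarith) hs1 hs2
  rw [zero_mul, zero_mul, Real.exp_zero, mul_one, Complex.re_add_im] at key
  refine key.trans (le_of_eq ?_)
  ring

/-- From the growth of zeta to the two-sided bound. -/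
theorem moment_of_growth (P : ℂ[X]) {B : ℝ} (hB : 0 ≤ B) (h : LineB B) :
    ∃ C : ℝ, ∀ T : ℝ, 0 ≤ T →
      ‖∫ t in (0 : ℝ)..T, FE (fun z => P.eval z) (1 / 2 + t * I)‖ ≤
        C * (1 + T) ^ (P.natDegree * B) := by
  obtain ⟨K₀, hK₀⟩ := poly_grow P
  obtain ⟨T₀, C₀, hyp⟩ := FE_base P.differentiable hK₀
  obtain ⟨C₁, T₁, hC₁, hT₁, h₁⟩ := strip_bound hB h
  obtain ⟨K, hK, hK'⟩ := poly_upper P
  obtain ⟨G, hG⟩ := exists_primitive hyp.hf
  have hC₀ := hyp.hC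
  have hT₀ := hyp.hT₀
  set S : ℝ := max T₀ T₁ with hS
  have hS1 : 1 ≤ S := hT₀.trans (le_max_left _ _)
  obtain ⟨D, hD⟩ := (isCompact_Icc (a := (0 : ℝ)) (b := S)).exists_bound_of_continuousOn
    (FE_line_cont P.differentiable).continuousOn
  set E : ℝ := ‖G ((2 : ℝ) + T₀ * I) - G ((1 / 2 : ℝ) + S * I)‖ with hE
  have hdB : 0 ≤ (P.natDegree : ℝ) * B := by positivity
  have hsmall : ∀ T : ℝ, 0 ≤ T → T ≤ S →
      ‖∫ t in (0 : ℝ)..T, FE (fun z => P.eval z) (1 / 2 + t * I)‖ ≤ |D| * S := by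
    intro T hT hTS
    have h2 : ‖∫ t in (0 : ℝ)..T, FE (fun z => P.eval z) (1 / 2 + t * I)‖ ≤ |D| * |T - 0| := by
      refine intervalIntegral.norm_integral_le_of_norm_le_const ?_
      intro t ht
      rw [uIoc_of_le hT] at ht
      exact (hD t ⟨ht.1.le, ht.2.trans hTS⟩).trans (le_abs_self D)
    refine h2.trans ?_
    rw [sub_zero, abs_of_nonneg hT]
    gcongr
  set F : ℝ := 2 * (K * (2 * C₁) ^ P.natDegree + ‖P.eval 1‖) with hF
  have hF0 : 0 ≤ F := by positivity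
  refine ⟨|D| * S + F + 6 * C₀ + E, fun T hT => ?_⟩
  have hTB : 1 ≤ (1 + T) ^ (P.natDegree * B) := Real.one_le_rpow (by linarith) hdB
  have hDS : 0 ≤ |D| * S := by positivity
  have hE0 : 0 ≤ E := norm_nonneg _
  by_cases hTS : T ≤ S
  · refine (hsmall T hT hTS).trans ?_
    nlinarith
  push Not at hTS
  have hT1 : 1 ≤ T := hS1.trans hTS.le
  have hTS0 : T₀ ≤ T := (le_max_left _ _).trans hTS.le
  have hTS1 : T₁ ≤ T := (le_max_right _ _).trans hTS.le
  rw [int_split P.differentiable S T]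
  refine (norm_add_le _ _).trans ?_
  have e1 := hsmall S (by linarith) le_rfl
  have e2 := vertical hG hyp.hf (a := 1 / 2) (u := S) (v := T) (by linarith) (by linarith)
  have e3 : ‖∫ t in S..T, FE (fun z => P.eval z) (1 / 2 + t * I)‖ =
      ‖G ((1 / 2 : ℝ) + T * I) - G ((1 / 2 : ℝ) + S * I)‖ := by
    rw [e2, norm_mul, norm_I, one_mul]
    norm_num
  have e4 := horizontal hG hyp.hf (a := 1 / 2) (b := 2) (t := T) (by linarith)
  have hTd : T ^ (P.natDegree * B) ≤ (1 + T) ^ (P.natDegree * B) :=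
    Real.rpow_le_rpow (by linarith) (by linarith) hdB
  have e5 : ‖∫ x in (1 / 2 : ℝ)..2, FE (fun z => P.eval z) (x + T * I)‖ ≤
      (K * (2 * C₁) ^ P.natDegree + ‖P.eval 1‖) * (1 + T) ^ (P.natDegree * B) *
        |2 - (1 / 2 : ℝ)| := by
    refine intervalIntegral.norm_integral_le_of_norm_le_const ?_
    intro x hx
    rw [uIoc_of_le (by norm_num)] at hx
    have f1 := h₁ (x + T * I) (by simpa using hx.1.le) (by simpa using hx.2)
      (by simpa using hTS1)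
    have f2 : (x + T * I : ℂ).im = T := by simp
    rw [f2] at f1
    have f3 : 1 ≤ T ^ B := Real.one_le_rpow hT1 hB
    have f4 : (1 + ‖riemannZeta (x + T * I)‖) ^ P.natDegree ≤
        (2 * C₁ * T ^ B) ^ P.natDegree := by
      apply pow_le_pow_left₀ (by positivity)
      nlinarith
    have f5 : (2 * C₁ * T ^ B) ^ P.natDegree =
        (2 * C₁) ^ P.natDegree * T ^ (P.natDegree * B) := by
      rw [mul_pow, ← Real.rpow_natCast (T ^ B), ← Real.rpow_mul (by linarith), mul_comm B]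
    rw [f5] at f4
    unfold FE
    refine (norm_sub_le _ _).trans ?_
    have f6 : ‖P.eval (riemannZeta (x + T * I))‖ ≤
        K * (2 * C₁) ^ P.natDegree * T ^ (P.natDegree * B) := by
      refine (hK' _).trans ?_
      rw [mul_assoc]
      gcongr
    have f7 : 0 ≤ K * (2 * C₁) ^ P.natDegree := by positivity
    have f8 := norm_nonneg (P.eval 1)
    nlinarith
  rw [← e4, abs_of_nonneg (by norm_num)] at e5
  have e6 := right_bound hyp hG (s := ((2 : ℝ) + T * I)) (by simp) (by simpa using hTS0)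
  have e7 : G ((1 / 2 : ℝ) + T * I) - G ((1 / 2 : ℝ) + S * I) =
      -(G ((2 : ℝ) + T * I) - G ((1 / 2 : ℝ) + T * I)) +
      (G ((2 : ℝ) + T * I) - G ((2 : ℝ) + T₀ * I)) +
      (G ((2 : ℝ) + T₀ * I) - G ((1 / 2 : ℝ) + S * I)) := by ring
  have e8 : ‖G ((1 / 2 : ℝ) + T * I) - G ((1 / 2 : ℝ) + S * I)‖ ≤
      (K * (2 * C₁) ^ P.natDegree + ‖P.eval 1‖) * (1 + T) ^ (P.natDegree * B) *
        (2 - (1 / 2 : ℝ)) + 6 * C₀ + E := by
    rw [e7]
    refine norm_add₃_le.trans ?_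
    rw [norm_neg]
    gcongr
  rw [e3]
  have e9 : 0 ≤ (K * (2 * C₁) ^ P.natDegree + ‖P.eval 1‖) * (1 + T) ^ (P.natDegree * B) := by
    positivity
  rw [hF]
  nlinarith

end Pool.Agent.HolMom
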