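import Mathlib

/-!
# Growth of a holomorphic function from one-sided bounds for its primitive

General part of the theorem on the holomorphic moments of zeta.
-/

set_option autoImplicit false

open Complex Set Metric MeasureTheory Filter Topology

namespace Pool.Agent.HolMom

/-! ### Primitives in the upper half plane -/

lemma mem_ball_upper {z : ℂ} {R : ℝ} (hR : 0 < R) :
    z ∈ ball ((R : ℂ) * I) R ↔ ‖z‖ ^ 2 < 2 * R * z.im := by
  rw [mem_ball, Complex.dist_eq]
  have h0 : 0 ≤ ‖z - R * I‖ := norm_nonneg _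
  have h1 : ‖z - R * I‖ ^ 2 = ‖z‖ ^ 2 - 2 * R * z.im + R ^ 2 := by
    rw [← Complex.normSq_eq_norm_sq, ← Complex.normSq_eq_norm_sq, Complex.normSq_apply,
      Complex.normSq_apply]
    simp
    ring
  constructor
  · intro h
    nlinarith
  · intro h
    by_contra hc
    push Not at hc
    nlinarith

lemma ball_upper_mono {R R' : ℝ} (hR : 0 < R) (h : R ≤ R') :
    ball ((R : ℂ) * I) R ⊆ ball ((R' : ℂ) * I) R' := by
  intro z hz
  rw [mem_ball_upper hR] at hz
  rw [mem_ball_upper (hR.trans_le h)]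
  have him : 0 < z.im := by
    by_contra hc
    push Not at hc
    nlinarith [sq_nonneg ‖z‖]
  nlinarith

lemma ball_upper_im {z : ℂ} {R : ℝ} (hR : 0 < R) (hz : z ∈ ball ((R : ℂ) * I) R) : 0 < z.im := by
  rw [mem_ball_upper hR] at hz
  by_contra hc
  push Not at hc
  nlinarith [sq_nonneg ‖z‖]

/-- A holomorphic function on the upper half plane has a primitive. -/
theorem exists_primitive {f : ℂ → ℂ} (hf : ∀ s : ℂ, 0 < s.im → DifferentiableAt ℂ f s) :
    ∃ G : ℂ → ℂ, ∀ s : ℂ, 0 < s.im → HasDerivAt G (f s) s := by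
  have hprim : ∀ n : ℕ, ∃ g : ℂ → ℂ, g I = 0 ∧
      ∀ z ∈ ball (((n + 1 : ℕ) : ℝ) * I : ℂ) ((n + 1 : ℕ) : ℝ), HasDerivAt g (f z) z := by
    intro n
    have hn : (0 : ℝ) < ((n + 1 : ℕ) : ℝ) := by positivity
    have h1 : DifferentiableOn ℂ f (ball (((n + 1 : ℕ) : ℝ) * I : ℂ) ((n + 1 : ℕ) : ℝ)) :=
      fun z hz => (hf z (ball_upper_im hn hz)).differentiableWithinAt
    exact h1.isExactOn_ball.with_val_at I 0
  choose g hg0 hg using hprim
  have hI : ∀ n : ℕ, I ∈ ball (((n + 1 : ℕ) : ℝ) * I : ℂ) ((n + 1 : ℕ) : ℝ) := by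
    intro n
    rw [mem_ball_upper (by positivity)]
    simp only [norm_I, I_im]
    have : (1 : ℝ) ≤ ((n + 1 : ℕ) : ℝ) := by exact_mod_cast Nat.succ_le_succ (Nat.zero_le n)
    linarith
  have heq : ∀ m n : ℕ, m ≤ n → ∀ z ∈ ball (((m + 1 : ℕ) : ℝ) * I : ℂ) ((m + 1 : ℕ) : ℝ),
      g n z = g m z := by
    intro m n hmn z hz
    have hsub := ball_upper_mono (R := ((m + 1 : ℕ) : ℝ)) (R' := ((n + 1 : ℕ) : ℝ))
      (by positivity) (by exact_mod_cast Nat.succ_le_succ hmn)
    have h1 : ∀ w ∈ ball (((m + 1 : ℕ) : ℝ) * I : ℂ) ((m + 1 : ℕ) : ℝ),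
        HasDerivAt (fun w => g n w - g m w) 0 w := by
      intro w hw
      have := (hg n w (hsub hw)).sub (hg m w hw)
      rwa [sub_self] at this
    have h2 := Convex.is_const_of_fderivWithin_eq_zero
      (convex_ball (((m + 1 : ℕ) : ℝ) * I : ℂ) ((m + 1 : ℕ) : ℝ)) (𝕜 := ℂ)
      (f := fun w => g n w - g m w)
      (fun w hw => (h1 w hw).differentiableAt.differentiableWithinAt)
      (fun w hw => by
        rw [fderivWithin_of_isOpen isOpen_ball hw]
        have := (h1 w hw).hasFDerivAt.fderiv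
        rw [this]
        ext
        simp) hz (hI m)
    simp only [hg0, sub_zero] at h2
    exact sub_eq_zero.1 h2
  have hex : ∀ z : ℂ, 0 < z.im → ∃ n : ℕ, ∀ᶠ w in 𝓝 z,
      w ∈ ball (((n + 1 : ℕ) : ℝ) * I : ℂ) ((n + 1 : ℕ) : ℝ) := by
    intro z hz
    obtain ⟨n, hn⟩ := exists_nat_gt (‖z‖ ^ 2 / (2 * z.im))
    refine ⟨n, isOpen_ball.mem_nhds ?_⟩
    rw [mem_ball_upper (by positivity)]
    rw [div_lt_iff₀ (by positivity)] at hn
    push_cast
    nlinarith
  classical
  let N : ℂ → ℕ := fun z => if hz : ∃ n : ℕ, z ∈ ball (((n + 1 : ℕ) : ℝ) * I : ℂ) ((n + 1 : ℕ) : ℝ)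
    then Nat.find hz else 0
  have hN : ∀ (z : ℂ) (n : ℕ), z ∈ ball (((n + 1 : ℕ) : ℝ) * I : ℂ) ((n + 1 : ℕ) : ℝ) →
      g (N z) z = g n z := by
    intro z n hz
    have hz' : ∃ n : ℕ, z ∈ ball (((n + 1 : ℕ) : ℝ) * I : ℂ) ((n + 1 : ℕ) : ℝ) := ⟨n, hz⟩
    have h1 : N z = Nat.find hz' := dif_pos hz'
    rw [h1]
    exact (heq _ n (Nat.find_min' hz' hz) z (Nat.find_spec hz')).symm
  refine ⟨fun z => g (N z) z, fun z hz => ?_⟩
  obtain ⟨n, hn⟩ := hex z hz
  refine (hg n z hn.self_of_nhds).congr_of_eventuallyEq ?_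
  filter_upwards [hn] with w hw
  exact hN w n hw

/-! ### The maximum principle in a box -/

/-- One-sided Phragmén–Lindelöf principle in the box `[1/2, 2] × [T - Y, T + Y]`. -/
theorem box {H : ℂ → ℂ} {T Y M : ℝ} (hY : 0 < Y)
    (hH : ∀ s : ℂ, 1 / 2 ≤ s.re → s.re ≤ 2 → |s.im - T| ≤ Y → DifferentiableAt ℂ H s)
    (hside : ∀ s : ℂ, s.re = 1 / 2 ∨ s.re = 2 → |s.im - T| ≤ Y → (H s).re ≤ M)
    (htop : ∀ s : ℂ, 1 / 2 ≤ s.re → s.re ≤ 2 → |s.im - T| = Y →
      (H s).re ≤ M + Real.exp Y / 4) :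
    ∀ x : ℝ, 1 / 2 ≤ x → x ≤ 2 → (H (x + T * I)).re ≤ M + 1 := by
  intro x hx1 hx2
  set c : ℂ := ((5 / 4 : ℝ) : ℂ) + T * I with hc
  set E : ℂ → ℂ := fun s => Complex.exp (H s - M - Complex.cos (s - c)) with hE
  set U : Set ℂ := Ioo (1 / 2 : ℝ) 2 ×ℂ Ioo (T - Y) (T + Y) with hU
  have hclos : closure U = Icc (1 / 2 : ℝ) 2 ×ℂ Icc (T - Y) (T + Y) := by
    rw [hU, Complex.closure_reProdIm, closure_Ioo (by norm_num), closure_Ioo (by linarith)]
  have hbd : Bornology.IsBounded U := by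
    rw [hU]
    exact (Metric.isBounded_Ioo _ _).reProdIm (Metric.isBounded_Ioo _ _)
  have hcos : ∀ s : ℂ, (Complex.cos (s - c)).re =
      Real.cos (s.re - 5 / 4) * Real.cosh (s.im - T) := by
    intro s
    have h1 : s - c = ((s.re - 5 / 4 : ℝ) : ℂ) + ((s.im - T : ℝ) : ℂ) * I := by
      apply Complex.ext <;> simp [hc]
    rw [h1, Complex.cos_add_mul_I, ← Complex.ofReal_cos, ← Complex.ofReal_sin,
      ← Complex.ofReal_cosh, ← Complex.ofReal_sinh]
    simp only [Complex.sub_re, Complex.mul_re, Complex.mul_im, Complex.ofReal_re,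
      Complex.ofReal_im, Complex.I_re, Complex.I_im]
    ring
  have hcos1 : ∀ y : ℝ, |y| ≤ 3 / 4 → 1 / 2 ≤ Real.cos y := by
    intro y hy
    have h1 := Real.one_sub_sq_div_two_le_cos (x := y)
    have h2 : y ^ 2 ≤ (3 / 4) ^ 2 := by
      rw [← sq_abs]
      gcongr
    linarith
  have hEn : ∀ s : ℂ, ‖E s‖ = Real.exp ((H s).re - M -
      Real.cos (s.re - 5 / 4) * Real.cosh (s.im - T)) := by
    intro s
    rw [hE]
    simp only [Complex.norm_exp, Complex.sub_re, Complex.ofReal_re, hcos]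
  have hd : DiffContOnCl ℂ E U := by
    have h1 : ∀ s ∈ closure U, DifferentiableAt ℂ E s := by
      intro s hs
      rw [hclos] at hs
      obtain ⟨h1, h2⟩ := hs
      have h3 : |s.im - T| ≤ Y := abs_le.2 ⟨by linarith [h2.1], by linarith [h2.2]⟩
      have := hH s h1.1 h1.2 h3
      simp only [hE]
      fun_prop
    exact ⟨fun s hs => (h1 s (subset_closure hs)).differentiableWithinAt,
      fun s hs => (h1 s hs).continuousAt.continuousWithinAt⟩
  have hfr : ∀ s ∈ frontier U, ‖E s‖ ≤ 1 := by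
    intro s hs
    have hopen : IsOpen U := isOpen_Ioo.reProdIm isOpen_Ioo
    rw [hopen.frontier_eq, hclos] at hs
    obtain ⟨⟨h1, h2⟩, h3⟩ := hs
    have h4 : |s.im - T| ≤ Y := abs_le.2 ⟨by linarith [h2.1], by linarith [h2.2]⟩
    have h5 : 1 / 2 ≤ Real.cos (s.re - 5 / 4) :=
      hcos1 _ (abs_le.2 ⟨by linarith [h1.1], by linarith [h1.2]⟩)
    have h6 : 1 ≤ Real.cosh (s.im - T) := Real.one_le_cosh _
    rw [hEn, Real.exp_le_one_iff]
    by_cases h7 : s.re = 1 / 2 ∨ s.re = 2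
    · have := hside s h7 h4
      nlinarith
    · push Not at h7
      have h8 : |s.im - T| = Y := by
        by_contra h9
        apply h3
        refine ⟨⟨lt_of_le_of_ne h1.1 (Ne.symm h7.1), lt_of_le_of_ne h1.2 h7.2⟩, ?_⟩
        have h10 := abs_lt.1 (lt_of_le_of_ne h4 h9)
        exact ⟨by linarith [h10.1], by linarith [h10.2]⟩
      have h9 := htop s h1.1 h1.2 h8
      have h10 : Real.exp Y / 2 ≤ Real.cosh (s.im - T) := by
        rw [← Real.cosh_abs, h8, Real.cosh_eq]
        have := Real.exp_pos (-Y)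
        linarith
      have := Real.exp_pos Y
      nlinarith
  have hmem : (x + T * I : ℂ) ∈ closure U := by
    rw [hclos]
    refine ⟨⟨by simpa using hx1, by simpa using hx2⟩, ⟨?_, ?_⟩⟩ <;> simp <;> linarith
  have h := Complex.norm_le_of_forall_mem_frontier_norm_le hbd hd hfr hmem
  rw [hEn, Real.exp_le_one_iff] at h
  have h1 : Real.cos ((x + T * I : ℂ).re - 5 / 4) ≤ 1 := Real.cos_le_one _
  have h2 : (x + T * I : ℂ).im - T = 0 := by simp
  rw [h2, Real.cosh_zero] at h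
  linarith

/-! ### The main estimate -/

/-- Growth of single exponential type. -/
noncomputable def g1 (t : ℝ) : ℝ := Real.exp (t / 16)

/-- Growth of double exponential type. -/
noncomputable def g2 (t : ℝ) : ℝ := Real.exp (Real.exp (t / 16))

/-- Hypotheses: `f` is holomorphic in the upper half plane, grows at most like `g` to
the right of `1/2`, and tends to `0` exponentially to the right. -/
structure Hyp (f : ℂ → ℂ) (g : ℝ → ℝ) (T₀ C : ℝ) : Prop where
  hf : ∀ s : ℂ, 0 < s.im → DifferentiableAt ℂ f s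
  hT₀ : 1 ≤ T₀
  hC : 1 ≤ C
  hg : ∀ t : ℝ, 0 ≤ t → 1 ≤ g t
  growth : ∀ s : ℂ, 1 / 2 ≤ s.re → T₀ ≤ s.im → ‖f s‖ ≤ C * g s.im
  right : ∀ s : ℂ, 2 ≤ s.re → T₀ ≤ s.im → ‖f s‖ ≤ C * Real.exp (-(s.re - 2) / 2)

/-- The one-sided bound for the real part of `ω` times the integral of `f` along the line
`1/2`. -/
structure Line (f : ℂ → ℂ) (ω : ℂ) (B T₀ C : ℝ) : Prop where
  hω : ‖ω‖ = 1
  hB : 0 ≤ B
  line : ∀ T : ℝ, T₀ ≤ T → (ω * ∫ t in T₀..T, f (1 / 2 + t * I)).re ≤ C * T ^ B

section Main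

variable {f : ℂ → ℂ} {g : ℝ → ℝ} {ω : ℂ} {B T₀ C D : ℝ}

lemma horizontal {G : ℂ → ℂ} (hG : ∀ s : ℂ, 0 < s.im → HasDerivAt G (f s) s)
    (hf : ∀ s : ℂ, 0 < s.im → DifferentiableAt ℂ f s) {a b t : ℝ}
    (ht : 0 < t) : G (b + t * I) - G (a + t * I) = ∫ x in a..b, f (x + t * I) := by
  have h1 : ∀ x : ℝ, HasDerivAt (fun x : ℝ => G (x + t * I)) (f (x + t * I)) x := by
    intro x
    have h2 : HasDerivAt (fun z : ℂ => z + t * I) 1 (x : ℂ) := (hasDerivAt_id _).add_const _
    have h3 := (hG (x + t * I) (by simpa using ht)).comp (x : ℂ) h2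
    rw [mul_one] at h3
    exact h3.comp_ofReal
  rw [intervalIntegral.integral_eq_sub_of_hasDerivAt (fun x _ => h1 x)]
  apply Continuous.intervalIntegrable
  rw [continuous_iff_continuousAt]
  intro x
  have h2 := (hf (x + t * I) (by simpa using ht)).continuousAt
  exact ContinuousAt.comp (f := fun x : ℝ => (x + t * I : ℂ)) h2 (by fun_prop)

lemma vertical {G : ℂ → ℂ} (hG : ∀ s : ℂ, 0 < s.im → HasDerivAt G (f s) s)
    (hf : ∀ s : ℂ, 0 < s.im → DifferentiableAt ℂ f s) {a u v : ℝ}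
    (hu : 0 < u) (hv : 0 < v) :
    G (a + v * I) - G (a + u * I) = I * ∫ t in u..v, f (a + t * I) := by
  have him : ∀ t ∈ uIcc u v, 0 < t := by
    intro t ht
    exact lt_of_lt_of_le (lt_min hu hv) ht.1
  have h1 : ∀ t ∈ uIcc u v, HasDerivAt (fun t : ℝ => G (a + t * I)) (I * f (a + t * I)) t := by
    intro t ht
    have h2 : HasDerivAt (fun z : ℂ => (a : ℂ) + z * I) I (t : ℂ) := by
      have := ((hasDerivAt_id (t : ℂ)).mul_const I).const_add (a : ℂ)
      simpa using this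
    have h3 := (hG (a + t * I) (by simpa using him t ht)).comp (t : ℂ) h2
    rw [mul_comm] at h3
    exact h3.comp_ofReal
  rw [← intervalIntegral.integral_const_mul,
    intervalIntegral.integral_eq_sub_of_hasDerivAt (fun x hx => h1 x hx)]
  apply ContinuousOn.intervalIntegrable
  intro t ht
  have h2 := (hf (a + t * I) (by simpa using him t ht)).continuousAt
  have h3 : ContinuousAt (fun t : ℝ => f (a + t * I)) t :=
    ContinuousAt.comp (f := fun t : ℝ => (a + t * I : ℂ)) h2 (by fun_prop)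
  exact (continuousAt_const.mul h3).continuousWithinAt

/-- The primitive is bounded to the right of `2`. -/
lemma right_bound (h : Hyp f g T₀ C) {G : ℂ → ℂ}
    (hG : ∀ s : ℂ, 0 < s.im → HasDerivAt G (f s) s) {s : ℂ} (hs : 2 ≤ s.re) (ht : T₀ ≤ s.im) :
    ‖G s - G ((2 : ℝ) + T₀ * I)‖ ≤ 6 * C := by
  have hT₀ := h.hT₀
  have hC := h.hC
  -- the horizontal difference
  have hh : ∀ t : ℝ, T₀ ≤ t → ∀ a b : ℝ, 2 ≤ a → a ≤ b →
      ‖G (b + t * I) - G (a + t * I)‖ ≤ 2 * C := by
    intro t ht a b ha hab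
    rw [horizontal hG h.hf (by linarith)]
    have h1 : ∀ x : ℝ, x ∈ Ioc a b → ‖f (x + t * I)‖ ≤ C * Real.exp (-(x - 2) / 2) := by
      intro x hx
      have := h.right (x + t * I) (by simp; linarith [hx.1]) (by simpa using ht)
      simpa using this
    have h2 : ∀ x : ℝ, HasDerivAt (fun x : ℝ => -(2 * C) * Real.exp (-(x - 2) / 2))
        (C * Real.exp (-(x - 2) / 2)) x := by
      intro x
      have h3 : HasDerivAt (fun x : ℝ => -(x - 2) / 2) (-1 / 2) x := by
        have := (((hasDerivAt_id x).sub_const 2).neg).div_const 2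
        simpa using this
      have h4 := h3.exp.const_mul (-(2 * C))
      have h6 : -(2 * C) * (Real.exp (-(x - 2) / 2) * (-1 / 2)) =
          C * Real.exp (-(x - 2) / 2) := by ring
      rwa [h6] at h4
    have h5 : IntervalIntegrable (fun x : ℝ => C * Real.exp (-(x - 2) / 2)) volume a b := by
      apply Continuous.intervalIntegrable
      fun_prop
    calc ‖∫ x in a..b, f (x + t * I)‖ ≤ ∫ x in a..b, C * Real.exp (-(x - 2) / 2) := by
          refine intervalIntegral.norm_integral_le_of_norm_le hab ?_ h5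
          filter_upwards with x hx
          exact h1 x hx
      _ = -(2 * C) * Real.exp (-(b - 2) / 2) - -(2 * C) * Real.exp (-(a - 2) / 2) :=
          intervalIntegral.integral_eq_sub_of_hasDerivAt (fun x _ => h2 x) h5
      _ ≤ 2 * C := by
          have e1 := Real.exp_pos (-(b - 2) / 2)
          have e2 : Real.exp (-(a - 2) / 2) ≤ 1 := by
            rw [Real.exp_le_one_iff]
            linarith
          nlinarith
  -- the vertical difference, far to the right
  have hv : ∀ X : ℝ, 2 ≤ X → ‖G (X + s.im * I) - G (X + T₀ * I)‖ ≤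
      C * Real.exp (-(X - 2) / 2) * (s.im - T₀) := by
    intro X hX
    rw [vertical hG h.hf (by linarith) (by linarith), norm_mul, norm_I, one_mul]
    refine (intervalIntegral.norm_integral_le_of_norm_le_const
      (C := C * Real.exp (-(X - 2) / 2)) ?_).trans ?_
    · intro t ht'
      rw [uIoc_of_le ht] at ht'
      have := h.right (X + t * I) (by simpa using hX) (by simpa using ht'.1.le)
      simpa using this
    · rw [abs_of_nonneg (by linarith)]
  obtain ⟨X, hX1, hX2⟩ : ∃ X : ℝ, s.re ≤ X ∧ Real.exp (-(X - 2) / 2) * (s.im - T₀) ≤ 1 := by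
    refine ⟨s.re + 2 * (s.im - T₀), by linarith, ?_⟩
    have e1 : Real.exp (-(s.re + 2 * (s.im - T₀) - 2) / 2) ≤ Real.exp (-(s.im - T₀)) := by
      apply Real.exp_le_exp.2
      linarith
    have e2 : (s.im - T₀) ≤ Real.exp (s.im - T₀) := by
      have := Real.add_one_le_exp (s.im - T₀)
      linarith
    have e3 : Real.exp (-(s.im - T₀)) * Real.exp (s.im - T₀) = 1 := by
      rw [← Real.exp_add]
      simp
    have e4 := Real.exp_pos (-(s.im - T₀))
    have e5 : 0 ≤ s.im - T₀ := by linarith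
    nlinarith
  have h1 := hh s.im ht s.re X hs hX1
  have h2 := hh T₀ le_rfl 2 X le_rfl (hs.trans hX1)
  have h3 := hv X (hs.trans hX1)
  have h4 : C * Real.exp (-(X - 2) / 2) * (s.im - T₀) ≤ C := by
    rw [mul_assoc]
    nlinarith
  have hse : (s.re + s.im * I : ℂ) = s := Complex.re_add_im s
  rw [hse] at h1
  have h5 : G s - G ((2 : ℝ) + T₀ * I) = -(G (X + s.im * I) - G s)
      + (G (X + s.im * I) - G (X + T₀ * I)) + (G (X + T₀ * I) - G ((2 : ℝ) + T₀ * I)) := by ring
  rw [h5]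
  refine (norm_add₃_le).trans ?_
  rw [norm_neg]
  linarith

/-- Two-sided crude bound for the primitive. -/
lemma crude_bound (h : Hyp f g T₀ C) {G : ℂ → ℂ}
    (hG : ∀ s : ℂ, 0 < s.im → HasDerivAt G (f s) s) {s : ℂ} (hs : 1 / 2 ≤ s.re) (hs2 : s.re ≤ 2)
    (ht : T₀ ≤ s.im) : ‖G s - G ((2 : ℝ) + T₀ * I)‖ ≤ 8 * C * g s.im := by
  have hT₀ := h.hT₀
  have hC := h.hC
  have ht1 : 1 ≤ s.im := hT₀.trans ht
  have hse : (s.re + s.im * I : ℂ) = s := Complex.re_add_im s
  have h1 := horizontal hG h.hf (a := s.re) (b := 2) (t := s.im) (by linarith)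
  have h2 : ‖∫ x in s.re..2, f (x + s.im * I)‖ ≤ C * g s.im * |2 - s.re| := by
    refine intervalIntegral.norm_integral_le_of_norm_le_const ?_
    intro x hx
    rw [uIoc_of_le hs2] at hx
    have := h.growth (x + s.im * I) (by simp; linarith [hx.1]) (by simpa using ht)
    simpa using this
  rw [← h1, hse, abs_of_nonneg (by linarith)] at h2
  have h3 := right_bound h hG (s := ((2 : ℝ) + s.im * I)) (by simp) (by simpa using ht)
  have h4 : G s - G ((2 : ℝ) + T₀ * I) = -(G ((2 : ℝ) + s.im * I) - G s)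
      + (G ((2 : ℝ) + s.im * I) - G ((2 : ℝ) + T₀ * I)) := by ring
  rw [h4]
  refine (norm_add_le _ _).trans ?_
  rw [norm_neg]
  have h5 : 1 ≤ g s.im := h.hg _ (by linarith)
  have h6 : C * g s.im * (2 - s.re) ≤ C * g s.im * (3 / 2) := by
    gcongr
    linarith
  have h7 : 6 * C ≤ 6 * C * g s.im := by nlinarith
  have h8 : 0 ≤ C * g s.im := by positivity
  linarith

/-- One-sided bound for the primitive on the line `1/2`. -/
lemma line_bound (h : Hyp f g T₀ C) (hl : Line f ω B T₀ D) {G : ℂ → ℂ}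
    (hG : ∀ s : ℂ, 0 < s.im → HasDerivAt G (f s) s) {T : ℝ} (ht : T₀ ≤ T) :
    (-I * ω * (G ((1 / 2 : ℝ) + T * I) - G ((2 : ℝ) + T₀ * I))).re ≤
      (D + 8 * C * g T₀) * T ^ B := by
  have hT₀ := h.hT₀
  have hC := h.hC
  have h1 := vertical hG h.hf (a := 1 / 2) (u := T₀) (v := T) (by linarith) (by linarith)
  have h2 : -I * ω * (G ((1 / 2 : ℝ) + T * I) - G ((2 : ℝ) + T₀ * I)) =
      ω * (∫ t in T₀..T, f ((1 / 2 : ℝ) + t * I)) +
        -I * ω * (G ((1 / 2 : ℝ) + T₀ * I) - G ((2 : ℝ) + T₀ * I)) := by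
    have h3 : G ((1 / 2 : ℝ) + T * I) = G ((1 / 2 : ℝ) + T₀ * I) +
      I * ∫ t in T₀..T, f ((1 / 2 : ℝ) + t * I) := by rw [← h1]; ring
    rw [h3]
    linear_combination (-ω * ∫ t in T₀..T, f ((1 / 2 : ℝ) + t * I)) * I_mul_I
  rw [h2, Complex.add_re]
  have h4 : (ω * (∫ t in T₀..T, f ((1 / 2 : ℝ) + t * I))).re ≤ D * T ^ B := by
    have := hl.line T ht
    norm_num at this ⊢
    exact this
  have h5 : (-I * ω * (G ((1 / 2 : ℝ) + T₀ * I) - G ((2 : ℝ) + T₀ * I))).re ≤
      8 * C * g T₀ := by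
    refine (Complex.re_le_norm _).trans ?_
    rw [norm_mul, norm_mul, norm_neg, norm_I, hl.hω, one_mul, one_mul]
    have := crude_bound h hG (s := ((1 / 2 : ℝ) + T₀ * I)) (by simp) (by simp; norm_num)
      (by simp)
    simpa using this
  have h6 : 1 ≤ T ^ B := Real.one_le_rpow (hT₀.trans ht) hl.hB
  have h8 : 1 ≤ g T₀ := h.hg _ (by linarith)
  have h7 : 0 ≤ 8 * C * g T₀ := by positivity
  nlinarith

/-- The one-sided bound in the half strip. -/
theorem half_strip (h : Hyp f g1 T₀ C) (hl : Line f ω B T₀ D) {G : ℂ → ℂ}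
    (hG : ∀ s : ℂ, 0 < s.im → HasDerivAt G (f s) s) :
    ∃ K T₁ : ℝ, 1 ≤ K ∧ T₀ ≤ T₁ ∧ ∀ s : ℂ, 1 / 2 ≤ s.re → T₁ ≤ s.im →
      (-I * ω * (G s - G ((2 : ℝ) + T₀ * I))).re ≤ K * s.im ^ B := by
  have hT₀ := h.hT₀
  have hC := h.hC
  have hB := hl.hB
  set L : ℝ := |D| + 8 * C * g1 T₀ with hL
  have hL0 : 1 ≤ L := by
    have h1 : 1 ≤ g1 T₀ := h.hg _ (by linarith)
    have h2 := abs_nonneg D
    nlinarith
  -- the height of the box
  obtain ⟨T₁, hT₁⟩ : ∃ T₁ : ℝ, T₁ = 2 * T₀ + 128 * C := ⟨_, rfl⟩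
  refine ⟨(L + 6 * C) * 2 ^ B + 1, T₁, ?_, by linarith, ?_⟩
  · have : 0 < (2 : ℝ) ^ B := by positivity
    have h2 : 0 < (L + 6 * C) := by linarith
    nlinarith [mul_pos h2 this]
  intro s hs ht
  have ht0 : T₀ ≤ s.im := by linarith
  have h2B : (1 : ℝ) ≤ 2 ^ B := Real.one_le_rpow (by norm_num) hB
  have hsB : 1 ≤ s.im ^ B := Real.one_le_rpow (by linarith) hB
  by_cases hs2 : 2 ≤ s.re
  · refine (Complex.re_le_norm _).trans ?_
    rw [norm_mul, norm_mul, norm_neg, norm_I, hl.hω, one_mul, one_mul]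
    refine (right_bound h hG hs2 ht0).trans ?_
    have e1 : 6 * C ≤ (L + 6 * C) * 2 ^ B := by nlinarith
    nlinarith
  push Not at hs2
  set Y : ℝ := s.im / 2 with hY
  have hY0 : 0 < Y := by linarith
  have hM : ∀ t : ℝ, |t - s.im| ≤ Y → T₀ ≤ t ∧ t ≤ 2 * s.im ∧ t ≤ 3 * Y := by
    intro t ht
    have := abs_le.1 ht
    refine ⟨?_, ?_, ?_⟩ <;> linarith [this.1, this.2]
  have key := box (H := fun z => -I * ω * (G z - G ((2 : ℝ) + T₀ * I))) (T := s.im) (Y := Y)
    (M := (L + 6 * C) * (2 * s.im) ^ B) hY0 (by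
      intro z hz1 hz2 hz3
      have := (hG z (by linarith [(hM _ hz3).1])).differentiableAt
      fun_prop) (by
      intro z hz hz3
      obtain ⟨e1, e2, -⟩ := hM _ hz3
      have e3 : z.im ^ B ≤ (2 * s.im) ^ B := Real.rpow_le_rpow (by linarith) e2 hB
      have e4 : 1 ≤ (2 * s.im) ^ B := Real.one_le_rpow (by linarith) hB
      have hze : (z.re + z.im * I : ℂ) = z := Complex.re_add_im z
      rcases hz with hz | hz
      · have := line_bound h hl hG e1
        rw [← hz, hze] at this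
        refine this.trans ?_
        have e5 : D + 8 * C * g1 T₀ ≤ L := by
          rw [hL]
          linarith [le_abs_self D]
        have e6 : 0 ≤ z.im ^ B := Real.rpow_nonneg (by linarith) B
        nlinarith
      · refine (Complex.re_le_norm _).trans ?_
        rw [norm_mul, norm_mul, norm_neg, norm_I, hl.hω, one_mul, one_mul]
        refine (right_bound h hG hz.ge e1).trans ?_
        nlinarith) (by
      intro z hz1 hz2 hz3
      obtain ⟨e1, -, e2⟩ := hM _ hz3.le
      refine (Complex.re_le_norm _).trans ?_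
      rw [norm_mul, norm_mul, norm_neg, norm_I, hl.hω, one_mul, one_mul]
      refine (crude_bound h hG hz1 hz2 e1).trans ?_
      have e3 : g1 z.im ≤ Real.exp (Y / 4) := Real.exp_le_exp.2 (by linarith)
      have e4 : 0 ≤ (L + 6 * C) * (2 * s.im) ^ B := by
        have : 0 ≤ (2 * s.im) ^ B := Real.rpow_nonneg (by linarith) B
        have h2 : 0 < (L + 6 * C) := by linarith
        positivity
      have e5 : 8 * C * Real.exp (Y / 4) ≤ Real.exp Y / 4 := by
        have e6 : Real.exp Y = Real.exp (Y / 4) * Real.exp (3 * Y / 4) := by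
          rw [← Real.exp_add]
          congr 1
          ring
        have e7 : 32 * C ≤ Real.exp (3 * Y / 4) := by
          have := Real.add_one_le_exp (3 * Y / 4)
          linarith
        have e8 := Real.exp_pos (Y / 4)
        rw [e6]
        nlinarith
      nlinarith) s.re hs hs2.le
  rw [Complex.re_add_im] at key
  refine key.trans ?_
  rw [Real.mul_rpow (by norm_num) (by linarith)]
  nlinarith

/-- **The main estimate.** -/
theorem main (h : Hyp f g1 T₀ C) (hl : Line f ω B T₀ D) {d : ℝ} (hd : 0 < d) (hd1 : d < 1) :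
    ∃ K T₁ : ℝ, 1 ≤ K ∧ 1 ≤ T₁ ∧ ∀ s : ℂ, 1 / 2 + d ≤ s.re → s.re ≤ 2 → T₁ ≤ s.im →
      ‖f s‖ ≤ K * s.im ^ B := by
  obtain ⟨G, hG⟩ := exists_primitive h.hf
  obtain ⟨K, T₁, hK, hT₁, hK'⟩ := half_strip h hl hG
  have hT₀ := h.hT₀
  have hC := h.hC
  have hB := hl.hB
  set H : ℂ → ℂ := fun z => -I * ω * (G z - G ((2 : ℝ) + T₀ * I)) with hHdef
  have hHd : ∀ z : ℂ, 0 < z.im → HasDerivAt H (-I * ω * f z) z := by
    intro z hz
    exact ((hG z hz).sub_const _).const_mul _
  -- the bound for `H` in discs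
  have hdisc : ∀ T : ℝ, T₁ + 2 ≤ T → ∀ z : ℂ, ‖z - ((2 : ℝ) + T * I)‖ ≤ 3 / 2 - d / 2 →
      ‖H z‖ ≤ (6 * K * 2 ^ B + 18 * C) / (d / 2) * T ^ B := by
    intro T hT z hz
    have hT1 : 1 ≤ T := by linarith
    have hTB : 1 ≤ T ^ B := Real.one_le_rpow hT1 hB
    have h2B : (1 : ℝ) ≤ 2 ^ B := Real.one_le_rpow (by norm_num) hB
    set c : ℂ := (2 : ℝ) + T * I with hc
    have hloc : ∀ w : ℂ, ‖w‖ < 3 / 2 → 1 / 2 ≤ (w + c).re ∧ T₁ ≤ (w + c).im ∧
        (w + c).im ≤ 2 * T := by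
      intro w hw
      have e1 := (Complex.abs_re_le_norm w).trans hw.le
      have e2 := (Complex.abs_im_le_norm w).trans hw.le
      rw [abs_le] at e1 e2
      have e3 : (w + c).re = w.re + 2 := by simp [hc]
      have e4 : (w + c).im = w.im + T := by simp [hc]
      rw [e3, e4]
      refine ⟨by linarith [e1.1], by linarith [e2.1], by linarith [e2.2]⟩
    have hbc := Complex.borelCaratheodory (f := fun w => H (w + c)) (M := K * 2 ^ B * T ^ B)
      (R := 3 / 2) (z := z - c) (by positivity) (by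
        intro w hw
        rw [mem_ball_zero_iff] at hw
        have e1 := hloc w hw
        have e2 := (hHd (w + c) (by linarith [e1.2.1])).differentiableAt
        have e3 : DifferentiableAt ℂ (fun w => H (w + c)) w :=
          DifferentiableAt.comp (f := fun w : ℂ => w + c) w e2 (by fun_prop)
        exact e3.differentiableWithinAt) (by
        intro w hw
        rw [mem_ball_zero_iff] at hw
        have e1 := hloc w hw
        have e2 := hK' (w + c) e1.1 e1.2.1
        change (H (w + c)).re ≤ _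
        refine e2.trans ?_
        have e3 : (w + c).im ^ B ≤ (2 * T) ^ B :=
          Real.rpow_le_rpow (by linarith [e1.2.1]) e1.2.2 hB
        rw [Real.mul_rpow (by norm_num) (by linarith)] at e3
        nlinarith) (by norm_num) (by
        rw [mem_ball_zero_iff]
        linarith)
    have e0 : ‖H c‖ ≤ 6 * C := by
      rw [hHdef]
      simp only
      rw [norm_mul, norm_mul, norm_neg, norm_I, hl.hω, one_mul, one_mul]
      exact right_bound h hG (by simp [hc]) (by simp [hc]; linarith)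
    simp only [sub_add_cancel, zero_add] at hbc
    have e1 : d / 2 ≤ 3 / 2 - ‖z - c‖ := by linarith
    have e2 : 0 ≤ ‖z - c‖ := norm_nonneg _
    have e3 : 2 * (K * 2 ^ B * T ^ B) * ‖z - c‖ / (3 / 2 - ‖z - c‖) ≤
        2 * (K * 2 ^ B * T ^ B) * 3 / (d / 2) := by
      gcongr
      linarith
    have e4 : ‖H c‖ * (3 / 2 + ‖z - c‖) / (3 / 2 - ‖z - c‖) ≤ 6 * C * 3 / (d / 2) := by
      gcongr
      linarith
    refine hbc.trans ((add_le_add e3 e4).trans ?_)
    rw [← add_div, div_mul_eq_mul_div]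
    gcongr
    nlinarith
  refine ⟨max 1 ((6 * K * 2 ^ B + 18 * C) / (d / 2) / (d / 2)), max 1 (T₁ + 2), le_max_left _ _,
    le_max_left _ _, ?_⟩
  intro s hs1 hs2 ht
  have ht2 : T₁ + 2 ≤ s.im := (le_max_right _ _).trans ht
  have hcauchy : ‖deriv H s‖ ≤ ((6 * K * 2 ^ B + 18 * C) / (d / 2) * s.im ^ B) / (d / 2) := by
    refine Complex.norm_deriv_le_of_forall_mem_sphere_norm_le (by positivity) ?_ ?_
    · have e1 : ∀ w ∈ closure (ball s (d / 2)), DifferentiableAt ℂ H w := by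
        intro w hw
        rw [closure_ball _ (by positivity), mem_closedBall, Complex.dist_eq] at hw
        have e2 := (Complex.abs_im_le_norm (w - s)).trans hw
        rw [abs_le, Complex.sub_im] at e2
        exact (hHd w (by linarith [e2.1])).differentiableAt
      exact ⟨fun w hw => (e1 w (subset_closure hw)).differentiableWithinAt,
        fun w hw => (e1 w hw).continuousAt.continuousWithinAt⟩
    · intro w hw
      apply hdisc s.im ht2
      rw [mem_sphere, Complex.dist_eq] at hw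
      have e1 : w - ((2 : ℝ) + s.im * I) = (w - s) + (s - ((2 : ℝ) + s.im * I)) := by ring
      have e2 : s - ((2 : ℝ) + s.im * I) = ((s.re - 2 : ℝ) : ℂ) := by
        apply Complex.ext <;> simp
      rw [e1, e2]
      refine (norm_add_le _ _).trans ?_
      rw [hw, Complex.norm_real, Real.norm_eq_abs, abs_of_nonpos (by linarith)]
      linarith
  rw [(hHd s (by linarith)).deriv, norm_mul, norm_mul, norm_neg, norm_I, hl.hω, one_mul,
    one_mul] at hcauchy
  refine hcauchy.trans ?_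
  have e5 : ((6 * K * 2 ^ B + 18 * C) / (d / 2) * s.im ^ B) / (d / 2) =
      ((6 * K * 2 ^ B + 18 * C) / (d / 2) / (d / 2)) * s.im ^ B := by ring
  rw [e5]
  have e6 : 0 ≤ s.im ^ B := Real.rpow_nonneg (by linarith) B
  exact mul_le_mul_of_nonneg_right (le_max_right _ _) e6

/-- Two-sided Phragmén–Lindelöf principle in the box `[1/2, 2] × [T - Y, T + Y]`. -/
theorem box2 {H : ℂ → ℂ} {T Y M : ℝ} (hY : 0 < Y)
    (hH : ∀ s : ℂ, 1 / 2 ≤ s.re → s.re ≤ 2 → |s.im - T| ≤ Y → DifferentiableAt ℂ H s)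
    (hside : ∀ s : ℂ, s.re = 1 / 2 ∨ s.re = 2 → |s.im - T| ≤ Y → ‖H s‖ ≤ M)
    (htop : ∀ s : ℂ, 1 / 2 ≤ s.re → s.re ≤ 2 → |s.im - T| = Y →
      ‖H s‖ ≤ M * Real.exp (Real.exp Y / 4)) :
    ∀ x : ℝ, 1 / 2 ≤ x → x ≤ 2 → ‖H (x + T * I)‖ ≤ M * Real.exp 1 := by
  intro x hx1 hx2
  set c : ℂ := ((5 / 4 : ℝ) : ℂ) + T * I with hc
  set E : ℂ → ℂ := fun s => H s * Complex.exp (-Complex.cos (s - c)) with hE
  set U : Set ℂ := Ioo (1 / 2 : ℝ) 2 ×ℂ Ioo (T - Y) (T + Y) with hU
  have hclos : closure U = Icc (1 / 2 : ℝ) 2 ×ℂ Icc (T - Y) (T + Y) := by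
    rw [hU, Complex.closure_reProdIm, closure_Ioo (by norm_num), closure_Ioo (by linarith)]
  have hbd : Bornology.IsBounded U := by
    rw [hU]
    exact (Metric.isBounded_Ioo _ _).reProdIm (Metric.isBounded_Ioo _ _)
  have hcos : ∀ s : ℂ, (Complex.cos (s - c)).re =
      Real.cos (s.re - 5 / 4) * Real.cosh (s.im - T) := by
    intro s
    have h1 : s - c = ((s.re - 5 / 4 : ℝ) : ℂ) + ((s.im - T : ℝ) : ℂ) * I := by
      apply Complex.ext <;> simp [hc]
    rw [h1, Complex.cos_add_mul_I, ← Complex.ofReal_cos, ← Complex.ofReal_sin,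
      ← Complex.ofReal_cosh, ← Complex.ofReal_sinh]
    simp only [Complex.sub_re, Complex.mul_re, Complex.mul_im, Complex.ofReal_re,
      Complex.ofReal_im, Complex.I_re, Complex.I_im]
    ring
  have hcos1 : ∀ y : ℝ, |y| ≤ 3 / 4 → 1 / 2 ≤ Real.cos y := by
    intro y hy
    have h1 := Real.one_sub_sq_div_two_le_cos (x := y)
    have h2 : y ^ 2 ≤ (3 / 4) ^ 2 := by
      rw [← sq_abs]
      gcongr
    linarith
  have hEn : ∀ s : ℂ, ‖E s‖ = ‖H s‖ *
      Real.exp (-(Real.cos (s.re - 5 / 4) * Real.cosh (s.im - T))) := by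
    intro s
    rw [hE]
    simp only [norm_mul, Complex.norm_exp, Complex.neg_re, hcos]
  have hd : DiffContOnCl ℂ E U := by
    have h1 : ∀ s ∈ closure U, DifferentiableAt ℂ E s := by
      intro s hs
      rw [hclos] at hs
      obtain ⟨h1, h2⟩ := hs
      have h3 : |s.im - T| ≤ Y := abs_le.2 ⟨by linarith [h2.1], by linarith [h2.2]⟩
      have := hH s h1.1 h1.2 h3
      simp only [hE]
      fun_prop
    exact ⟨fun s hs => (h1 s (subset_closure hs)).differentiableWithinAt,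
      fun s hs => (h1 s hs).continuousAt.continuousWithinAt⟩
  have hfr : ∀ s ∈ frontier U, ‖E s‖ ≤ M := by
    intro s hs
    have hopen : IsOpen U := isOpen_Ioo.reProdIm isOpen_Ioo
    rw [hopen.frontier_eq, hclos] at hs
    obtain ⟨⟨h1, h2⟩, h3⟩ := hs
    have h4 : |s.im - T| ≤ Y := abs_le.2 ⟨by linarith [h2.1], by linarith [h2.2]⟩
    have h5 : 1 / 2 ≤ Real.cos (s.re - 5 / 4) :=
      hcos1 _ (abs_le.2 ⟨by linarith [h1.1], by linarith [h1.2]⟩)
    have h6 : 1 ≤ Real.cosh (s.im - T) := Real.one_le_cosh _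
    have h0 : 0 ≤ ‖H s‖ := norm_nonneg _
    rw [hEn]
    by_cases h7 : s.re = 1 / 2 ∨ s.re = 2
    · have h8 := hside s h7 h4
      have h9 : Real.exp (-(Real.cos (s.re - 5 / 4) * Real.cosh (s.im - T))) ≤ 1 := by
        rw [Real.exp_le_one_iff]
        nlinarith
      have h10 := Real.exp_pos (-(Real.cos (s.re - 5 / 4) * Real.cosh (s.im - T)))
      nlinarith
    · push Not at h7
      have h8 : |s.im - T| = Y := by
        by_contra h9
        apply h3
        refine ⟨⟨lt_of_le_of_ne h1.1 (Ne.symm h7.1), lt_of_le_of_ne h1.2 h7.2⟩, ?_⟩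
        have h10 := abs_lt.1 (lt_of_le_of_ne h4 h9)
        exact ⟨by linarith [h10.1], by linarith [h10.2]⟩
      have h9 := htop s h1.1 h1.2 h8
      have h10 : Real.exp Y / 2 ≤ Real.cosh (s.im - T) := by
        rw [← Real.cosh_abs, h8, Real.cosh_eq]
        have := Real.exp_pos (-Y)
        linarith
      have h11 := Real.exp_pos Y
      have h12 : Real.exp (-(Real.cos (s.re - 5 / 4) * Real.cosh (s.im - T))) ≤
          Real.exp (-(Real.exp Y / 4)) := by
        apply Real.exp_le_exp.2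
        nlinarith
      have h13 := Real.exp_pos (-(Real.cos (s.re - 5 / 4) * Real.cosh (s.im - T)))
      have h14 : M * Real.exp (Real.exp Y / 4) * Real.exp (-(Real.exp Y / 4)) = M := by
        rw [mul_assoc, ← Real.exp_add, add_neg_cancel, Real.exp_zero, mul_one]
      calc ‖H s‖ * Real.exp (-(Real.cos (s.re - 5 / 4) * Real.cosh (s.im - T)))
          ≤ ‖H s‖ * Real.exp (-(Real.exp Y / 4)) := mul_le_mul_of_nonneg_left h12 h0
        _ ≤ M * Real.exp (Real.exp Y / 4) * Real.exp (-(Real.exp Y / 4)) :=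
            mul_le_mul_of_nonneg_right h9 (Real.exp_pos _).le
        _ = M := h14
  have hmem : (x + T * I : ℂ) ∈ closure U := by
    rw [hclos]
    refine ⟨⟨by simpa using hx1, by simpa using hx2⟩, ⟨?_, ?_⟩⟩ <;> simp <;> linarith
  have h := Complex.norm_le_of_forall_mem_frontier_norm_le hbd hd hfr hmem
  rw [hEn] at h
  have h1 : Real.cos ((x + T * I : ℂ).re - 5 / 4) ≤ 1 := Real.cos_le_one _
  have h2 : (x + T * I : ℂ).im - T = 0 := by simp
  rw [h2, Real.cosh_zero, mul_one, Real.exp_neg] at h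
  have h3 : Real.exp (Real.cos ((x + T * I : ℂ).re - 5 / 4)) ≤ Real.exp 1 :=
    Real.exp_le_exp.2 h1
  have h4 := Real.exp_pos (Real.cos ((x + T * I : ℂ).re - 5 / 4))
  rw [← div_eq_mul_inv, div_le_iff₀ h4] at h
  have h5 : 0 ≤ M := by
    have h6 := hside (1 / 2 + T * I) (by simp) (by simp; exact hY.le)
    exact (norm_nonneg _).trans h6
  exact h.trans (mul_le_mul_of_nonneg_left h3 h5)

/-- **The main estimate**, two-sided version. -/
theorem main2 (h : Hyp f g2 T₀ C) (hB : 0 ≤ B) (hl : ∀ T : ℝ, T₀ ≤ T →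
      ‖∫ t in T₀..T, f (1 / 2 + t * I)‖ ≤ D * T ^ B) {d : ℝ} (hd : 0 < d) (hd1 : d < 1) :
    ∃ K T₁ : ℝ, 1 ≤ K ∧ 1 ≤ T₁ ∧ ∀ s : ℂ, 1 / 2 + d ≤ s.re → s.re ≤ 2 → T₁ ≤ s.im →
      ‖f s‖ ≤ K * s.im ^ B := by
  obtain ⟨G, hG⟩ := exists_primitive h.hf
  have hT₀ := h.hT₀
  have hC := h.hC
  set H : ℂ → ℂ := fun z => G z - G ((2 : ℝ) + T₀ * I) with hHdef
  have hHd : ∀ z : ℂ, 0 < z.im → HasDerivAt H (f z) z := fun z hz => (hG z hz).sub_const _
  have hg0 : 1 ≤ g2 T₀ := h.hg _ (by linarith)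
  have h2B : (1 : ℝ) ≤ 2 ^ B := Real.one_le_rpow (by norm_num) hB
  obtain ⟨L, hL⟩ : ∃ L : ℝ, L = |D| + 8 * C * g2 T₀ := ⟨_, rfl⟩
  have hL1 : 8 * C ≤ L := by
    have h2 := abs_nonneg D
    nlinarith
  -- the line
  have hline : ∀ T : ℝ, T₀ ≤ T → ‖H ((1 / 2 : ℝ) + T * I)‖ ≤ L * T ^ B := by
    intro T ht
    have h1 := vertical hG h.hf (a := 1 / 2) (u := T₀) (v := T) (by linarith) (by linarith)
    have h2 : H ((1 / 2 : ℝ) + T * I) = I * (∫ t in T₀..T, f ((1 / 2 : ℝ) + t * I)) +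
        (G ((1 / 2 : ℝ) + T₀ * I) - G ((2 : ℝ) + T₀ * I)) := by
      rw [← h1, hHdef]
      ring
    have h3 := hl T ht
    have h4 : ‖G ((1 / 2 : ℝ) + T₀ * I) - G ((2 : ℝ) + T₀ * I)‖ ≤ 8 * C * g2 T₀ := by
      have := crude_bound h hG (s := ((1 / 2 : ℝ) + T₀ * I)) (by simp) (by simp; norm_num)
        (by simp)
      simpa using this
    have h5 : 1 ≤ T ^ B := Real.one_le_rpow (hT₀.trans ht) hB
    rw [h2]
    refine (norm_add_le _ _).trans ?_
    rw [norm_mul, norm_I, one_mul]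
    have h6 : ‖∫ t in T₀..T, f ((1 / 2 : ℝ) + t * I)‖ ≤ |D| * T ^ B := by
      norm_num at h3 ⊢
      refine h3.trans ?_
      gcongr
      exact le_abs_self D
    have h7 : 8 * C * g2 T₀ ≤ 8 * C * g2 T₀ * T ^ B := by
      have : 0 ≤ 8 * C * g2 T₀ := by positivity
      nlinarith
    rw [hL]
    linarith
  -- the strip
  obtain ⟨T₁, hT₁⟩ : ∃ T₁ : ℝ, T₁ = 2 * T₀ + 4 := ⟨_, rfl⟩
  obtain ⟨K, hK⟩ : ∃ K : ℝ, K = L * 2 ^ B * Real.exp 1 := ⟨_, rfl⟩
  have he1 : 1 ≤ Real.exp 1 := Real.one_le_exp zero_le_one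
  have hK1 : 6 * C ≤ K := by
    have h1 : L ≤ L * 2 ^ B := by nlinarith
    have h2 : L * 2 ^ B ≤ L * 2 ^ B * Real.exp 1 := by
      have : 0 ≤ L * 2 ^ B := by linarith
      nlinarith
    rw [hK]
    linarith
  have hstrip : ∀ s : ℂ, 1 / 2 ≤ s.re → T₁ ≤ s.im → ‖H s‖ ≤ K * s.im ^ B := by
    intro s hs ht
    have hsB : 1 ≤ s.im ^ B := Real.one_le_rpow (by linarith) hB
    by_cases hs2 : 2 ≤ s.re
    · refine (right_bound h hG hs2 (by linarith)).trans ?_
      nlinarith
    push Not at hs2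
    obtain ⟨Y, hY⟩ : ∃ Y : ℝ, Y = s.im / 2 := ⟨_, rfl⟩
    have hY0 : 2 ≤ Y := by linarith
    have hM : ∀ t : ℝ, |t - s.im| ≤ Y → T₀ ≤ t ∧ t ≤ 2 * s.im ∧ t ≤ 3 * Y := by
      intro t ht
      have := abs_le.1 ht
      refine ⟨?_, ?_, ?_⟩ <;> linarith [this.1, this.2]
    have h2s : 1 ≤ (2 * s.im) ^ B := Real.one_le_rpow (by linarith) hB
    have key := box2 (H := H) (T := s.im) (Y := Y) (M := L * (2 * s.im) ^ B) (by linarith) (by
        intro z hz1 hz2 hz3
        exact (hHd z (by linarith [(hM _ hz3).1])).differentiableAt) (by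
        intro z hz hz3
        obtain ⟨e1, e2, -⟩ := hM _ hz3
        have e3 : z.im ^ B ≤ (2 * s.im) ^ B := Real.rpow_le_rpow (by linarith) e2 hB
        have hze : (z.re + z.im * I : ℂ) = z := Complex.re_add_im z
        rcases hz with hz | hz
        · have := hline z.im e1
          rw [← hz, hze] at this
          refine this.trans ?_
          have : 0 ≤ L := by linarith
          gcongr
        · refine (right_bound h hG hz.ge e1).trans ?_
          nlinarith) (by
        intro z hz1 hz2 hz3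
        obtain ⟨e1, -, e2⟩ := hM _ hz3.le
        refine (crude_bound h hG hz1 hz2 e1).trans ?_
        have e3 : g2 z.im ≤ Real.exp (Real.exp Y / 4) := by
          apply Real.exp_le_exp.2
          have e4 : Real.exp (z.im / 16) ≤ Real.exp (Y / 4) := Real.exp_le_exp.2 (by linarith)
          have e5 : Real.exp Y = Real.exp (Y / 4) * Real.exp (3 * Y / 4) := by
            rw [← Real.exp_add]
            congr 1
            ring
          have e6 : 2 * Real.exp 1 - 1 ≤ Real.exp (3 * Y / 4) := by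
            have e7 : Real.exp (3 * Y / 4) = Real.exp 1 * Real.exp (3 * Y / 4 - 1) := by
              rw [← Real.exp_add]
              congr 1
              ring
            have e8 := Real.add_one_le_exp (3 * Y / 4 - 1)
            rw [e7]
            nlinarith
          have e9 := Real.exp_one_gt_d9
          have e10 := Real.exp_pos (Y / 4)
          rw [e5]
          nlinarith
        have e4 : 0 < Real.exp (Real.exp Y / 4) := Real.exp_pos _
        calc 8 * C * g2 z.im ≤ 8 * C * Real.exp (Real.exp Y / 4) := by gcongr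
          _ ≤ L * (2 * s.im) ^ B * Real.exp (Real.exp Y / 4) :=
            mul_le_mul_of_nonneg_right (by nlinarith) e4.le) s.re hs hs2.le
    rw [Complex.re_add_im] at key
    refine key.trans (le_of_eq ?_)
    rw [hK, Real.mul_rpow (by norm_num) (by linarith)]
    ring
  refine ⟨max 1 (K * 2 ^ B / d), T₁ + 1, le_max_left _ _, by linarith, ?_⟩
  intro s hs1 hs2 ht
  have hcauchy : ‖deriv H s‖ ≤ (K * 2 ^ B * s.im ^ B) / d := by
    refine Complex.norm_deriv_le_of_forall_mem_sphere_norm_le hd ?_ ?_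
    · have e1 : ∀ w ∈ closure (ball s d), DifferentiableAt ℂ H w := by
        intro w hw
        rw [closure_ball _ (by positivity), mem_closedBall, Complex.dist_eq] at hw
        have e2 := (Complex.abs_im_le_norm (w - s)).trans hw
        rw [abs_le, Complex.sub_im] at e2
        exact (hHd w (by linarith [e2.1])).differentiableAt
      exact ⟨fun w hw => (e1 w (subset_closure hw)).differentiableWithinAt,
        fun w hw => (e1 w hw).continuousAt.continuousWithinAt⟩
    · intro w hw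
      rw [mem_sphere, Complex.dist_eq] at hw
      have e2 := (Complex.abs_im_le_norm (w - s)).trans hw.le
      have e3 := (Complex.abs_re_le_norm (w - s)).trans hw.le
      rw [abs_le, Complex.sub_im] at e2
      rw [abs_le, Complex.sub_re] at e3
      refine (hstrip w (by linarith [e3.1]) (by linarith [e2.1])).trans ?_
      have e4 : w.im ^ B ≤ (2 * s.im) ^ B :=
        Real.rpow_le_rpow (by linarith [e2.1]) (by linarith [e2.2]) hB
      rw [Real.mul_rpow (by norm_num) (by linarith)] at e4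
      rw [mul_assoc]
      have : 0 ≤ K := by linarith
      gcongr
  rw [(hHd s (by linarith)).deriv] at hcauchy
  refine hcauchy.trans ?_
  have e6 : 0 ≤ s.im ^ B := Real.rpow_nonneg (by linarith) B
  calc K * 2 ^ B * s.im ^ B / d = (K * 2 ^ B / d) * s.im ^ B := by ring
    _ ≤ _ := mul_le_mul_of_nonneg_right (le_max_right _ _) e6

end Main

end Pool.Agent.HolMom
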