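import Pool.Agent.HolMom.Zeta

/-!
# Values of zeta on large circles

If zeta omits one value `a` of modulus `T ^ c` in a disc at height `T`, then it is `O(T ^ c)` in a
slightly smaller disc.
-/

set_option autoImplicit false

open Complex Set Metric MeasureTheory Filter Topology Polynomial
open Pool.Agent.Lib.ZetaLine Pool.Agent.Lib.ZetaConv

namespace Pool.Agent.HolMom

/-- A zero-free function in a disc which is almost constant in a small disc. -/
lemma nonvanish {g : ℂ → ℂ} {c : ℂ} {R₂ R₃ R M m N : ℝ} (hR2 : 1 / 2 < R₂) (hR3 : R₂ < R₃)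
    (hR : R₃ < R) (hM : 0 < M) (hm : 0 < m) (hm1 : m ≤ 2) (hN : 1 ≤ N)
    (hMN : 2 * M * R₃ / (R - R₃) ≤ N)
    (hg : ∀ w ∈ ball c R, DifferentiableAt ℂ g w) (hg0 : ∀ w ∈ ball c R, g w ≠ 0)
    (hM' : ∀ w ∈ ball c R, ‖g w‖ ≤ Real.exp M * ‖g c‖)
    (hm' : ∀ w ∈ closedBall c (1 / 2), ‖deriv g w‖ ≤ m * ‖g w‖) {w : ℂ} (h1 : 1 / 2 ≤ ‖w - c‖)
    (h2 : ‖w - c‖ ≤ R₂) :
    ‖g w‖ ≤ ‖g c‖ * Real.exp ((m / 2) ^ (1 - (Real.log R₂ - Real.log (1 / 2)) /
      (Real.log R₃ - Real.log (1 / 2))) * N) := by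
  have hR0 : 0 < R := by linarith
  have hcR : c ∈ ball c R := mem_ball_self hR0
  have hgd : DifferentiableOn ℂ g (ball c R) := fun w hw => (hg w hw).differentiableWithinAt
  have hh : DifferentiableOn ℂ (fun w => deriv g w / g w) (ball c R) :=
    (hgd.deriv isOpen_ball).div hgd hg0
  obtain ⟨f, hf0, hf⟩ := hh.isExactOn_ball.with_val_at c 0
  have hconst : ∀ w ∈ ball c R, g w * Complex.exp (-f w) = g c := by
    intro w hw
    have hd : ∀ z ∈ ball c R, HasDerivAt (fun w => g w * Complex.exp (-f w)) 0 z := by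
      intro z hz
      have e1 := (hg z hz).hasDerivAt.mul (hf z hz).neg.cexp
      have e2 : g z * (deriv g z / g z) = deriv g z := mul_div_cancel₀ _ (hg0 z hz)
      have e3 : deriv g z * Complex.exp (-f z) +
          g z * (Complex.exp (-f z) * -(deriv g z / g z)) = 0 := by
        linear_combination (-Complex.exp (-f z)) * e2
      exact e1.congr_deriv e3
    have := isOpen_ball.is_const_of_deriv_eq_zero (convex_ball c R).isPreconnected
      (fun z hz => (hd z hz).differentiableAt.differentiableWithinAt)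
      (fun z hz => (hd z hz).deriv) hw hcR
    simp only [this, hf0, neg_zero, Complex.exp_zero, mul_one]
  have hgn : ∀ w ∈ ball c R, ‖g w‖ = ‖g c‖ * Real.exp (f w).re := by
    intro w hw
    have e1 := congrArg norm (hconst w hw)
    rw [norm_mul, Complex.norm_exp, Complex.neg_re] at e1
    rw [← e1, mul_assoc, ← Real.exp_add]
    simp
  have hgc : 0 < ‖g c‖ := norm_pos_iff.2 (hg0 c hcR)
  have hre : ∀ w ∈ ball c R, (f w).re ≤ M := by
    intro w hw
    have e1 := hM' w hw
    rw [hgn w hw, mul_comm] at e1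
    exact Real.exp_le_exp.1 (le_of_mul_le_mul_right e1 hgc)
  have hbc : ∀ w : ℂ, ‖w - c‖ ≤ R₃ → ‖f w‖ ≤ N := by
    intro w hw
    have e1 := Complex.borelCaratheodory_zero (f := fun z => f (z + c)) (M := M) (R := R)
      (z := w - c) hM (by
        intro z hz
        have hz' : z + c ∈ ball c R := by
          rw [mem_ball, Complex.dist_eq]
          rw [mem_ball_zero_iff] at hz
          simpa using hz
        have e2 : DifferentiableAt ℂ (fun z => f (z + c)) z :=
          DifferentiableAt.comp (f := fun z : ℂ => z + c) z (hf _ hz').differentiableAt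
            (by fun_prop)
        exact e2.differentiableWithinAt) (by
        intro z hz
        have hz' : z + c ∈ ball c R := by
          rw [mem_ball, Complex.dist_eq]
          rw [mem_ball_zero_iff] at hz
          simpa using hz
        exact hre _ hz') hR0 (by
        rw [mem_ball_zero_iff]
        linarith) (by simpa using hf0)
    simp only [sub_add_cancel] at e1
    refine e1.trans (le_trans ?_ hMN)
    have e3 : 0 ≤ ‖w - c‖ := norm_nonneg _
    have e4 : 0 < R - R₃ := by linarith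
    have e5 : 0 < R₃ := by linarith
    gcongr
  have hsm : ∀ w : ℂ, ‖w - c‖ ≤ 1 / 2 → ‖f w‖ ≤ m / 2 := by
    intro w hw
    have hsub : ∀ z ∈ closedBall c (1 / 2 : ℝ), z ∈ ball c R := by
      intro z hz
      exact closedBall_subset_ball (by linarith) hz
    have e1 := Convex.norm_image_sub_le_of_norm_hasDerivWithin_le (f := f)
      (f' := fun w => deriv g w / g w) (s := closedBall c (1 / 2)) (x := c) (y := w) (C := m)
      (fun z hz => (hf z (hsub z hz)).hasDerivWithinAt) (fun z hz => by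
        rw [norm_div, div_le_iff₀ (norm_pos_iff.2 (hg0 z (hsub z hz)))]
        exact hm' z hz) (convex_closedBall _ _) (by simp) (by
        rw [mem_closedBall, Complex.dist_eq]
        exact hw)
    rw [hf0, sub_zero] at e1
    nlinarith
  have hthree := three_circles (f := f) (c := c) (z := w) (r₁ := 1 / 2) (r₃ := R₃) (M₁ := m / 2)
    (M₃ := N) (by norm_num) (by linarith) (fun z hz =>
      (hf z (closedBall_subset_ball hR hz)).differentiableAt.differentiableWithinAt)
    (fun z hz => hsm z (by rw [mem_sphere, Complex.dist_eq] at hz; exact hz.le))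
    (fun z hz => hbc z (by rwa [mem_closedBall, Complex.dist_eq] at hz)) h1 (h2.trans hR3.le)
  have hl : Real.log (1 / 2) < Real.log R₃ := Real.log_lt_log (by norm_num) (by linarith)
  have hl0 : 0 < Real.log R₃ - Real.log (1 / 2) := by linarith
  have hlw : Real.log ‖w - c‖ ≤ Real.log R₂ := Real.log_le_log (by linarith) h2
  have hlw0 : Real.log (1 / 2) ≤ Real.log ‖w - c‖ := Real.log_le_log (by norm_num) h1
  have hl23 : Real.log R₂ ≤ Real.log R₃ := Real.log_le_log (by linarith) hR3.le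
  set θ := (Real.log ‖w - c‖ - Real.log (1 / 2)) / (Real.log R₃ - Real.log (1 / 2)) with hθ
  set θ₂ := (Real.log R₂ - Real.log (1 / 2)) / (Real.log R₃ - Real.log (1 / 2)) with hθ₂
  have hθθ : θ ≤ θ₂ := by
    rw [hθ, hθ₂]
    gcongr
  have hθ1 : θ ≤ 1 := by
    rw [hθ, div_le_one hl0]
    linarith
  have e1 : (m / 2) ^ (1 - θ) ≤ (m / 2) ^ (1 - θ₂) :=
    Real.rpow_le_rpow_of_exponent_ge (by positivity) (by linarith) (by linarith)
  have e2 : N ^ θ ≤ N := by
    calc N ^ θ ≤ N ^ (1 : ℝ) := Real.rpow_le_rpow_of_exponent_le hN hθ1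
      _ = N := Real.rpow_one N
  have e3 : ‖f w‖ ≤ (m / 2) ^ (1 - θ₂) * N := by
    refine hthree.trans ?_
    have : 0 ≤ N ^ θ := by positivity
    gcongr
  have hwR : w ∈ ball c R := by
    rw [mem_ball, Complex.dist_eq]
    linarith
  rw [hgn w hwR]
  gcongr
  exact (Complex.re_le_norm _).trans e3

/-- **Covering lemma.** -/
theorem cover {c d : ℝ} (hc : 0 < c) (hd : 0 < d) (hd1 : d < 1 / 2) :
    ∃ T₂ : ℝ, 4 ≤ T₂ ∧ ∀ T : ℝ, T₂ ≤ T → ∀ a : ℂ, ‖a‖ = T ^ c →
      (∀ s : ℂ, ‖s - (3 + T * I)‖ < 5 / 2 - d → riemannZeta s ≠ a) →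
      ∀ s : ℂ, ‖s - (3 + T * I)‖ ≤ 5 / 2 - 2 * d → ‖riemannZeta s‖ ≤ 6 * T ^ c := by
  obtain ⟨C₁, T₁, hC₁, hT₁, h₁⟩ := boundOn_crude
  obtain ⟨C₂, hC₂, h₂⟩ := Pool.Agent.Lib.ZetaCrude.norm_zeta_le_of_two_le
  obtain ⟨R₂, hR₂⟩ : ∃ R₂ : ℝ, R₂ = 5 / 2 - 2 * d := ⟨_, rfl⟩
  obtain ⟨R₃, hR₃⟩ : ∃ R₃ : ℝ, R₃ = 5 / 2 - 3 / 2 * d := ⟨_, rfl⟩
  obtain ⟨R, hR⟩ : ∃ R : ℝ, R = 5 / 2 - d := ⟨_, rfl⟩
  obtain ⟨κ, hκ⟩ : ∃ κ : ℝ, κ = 1 - (Real.log R₂ - Real.log (1 / 2)) /
      (Real.log R₃ - Real.log (1 / 2)) := ⟨_, rfl⟩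
  have hκ0 : 0 < κ := by
    have e1 : Real.log (1 / 2) < Real.log R₃ := Real.log_lt_log (by norm_num) (by linarith)
    have e2 : Real.log R₂ < Real.log R₃ := Real.log_lt_log (by linarith) (by linarith)
    rw [hκ, sub_pos, div_lt_one (by linarith)]
    linarith
  have hev : ∀ᶠ T : ℝ in atTop, 2 * C₂ ≤ T ^ c ∧ 2 * (1 + 2 * C₁ * T) ≤ T ^ 2 ∧
      1 ≤ 20 / d * Real.log T ∧
      (2 * C₂ / T ^ c) ^ κ * (20 / d * Real.log T) ≤ 1 ∧ T₁ + 3 ≤ T ∧ 4 ≤ T := by
    have hck : 0 < c * κ := by positivity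
    have g1 : ∀ᶠ T : ℝ in atTop, Real.log T ≤ 1 / ((2 * C₂) ^ κ * (20 / d)) * T ^ (c * κ) := by
      have := (isLittleO_log_rpow_atTop hck).def
        (c := 1 / ((2 * C₂) ^ κ * (20 / d))) (by positivity)
      filter_upwards [this, eventually_ge_atTop 1] with T h3 h4
      rw [Real.norm_eq_abs, Real.norm_eq_abs, abs_of_nonneg (Real.log_nonneg h4),
        abs_of_nonneg (by positivity)] at h3
      exact h3
    filter_upwards [(tendsto_rpow_atTop hc).eventually_ge_atTop (2 * C₂), g1,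
      eventually_ge_atTop (4 * C₁ + 2), Real.tendsto_log_atTop.eventually_ge_atTop (d / 20),
      eventually_ge_atTop (T₁ + 3), eventually_ge_atTop 4] with T e1 e2 e3 e4 e5 e6
    refine ⟨e1, by nlinarith, ?_, ?_, e5, e6⟩
    · rw [div_mul_eq_mul_div, le_div_iff₀ hd]
      linarith
    · have hT0 : 0 < T := by linarith
      rw [Real.div_rpow (by positivity) (by positivity), ← Real.rpow_mul hT0.le]
      have e7 : 0 < T ^ (c * κ) := by positivity
      rw [div_mul_eq_mul_div, div_le_one e7, ← mul_assoc]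
      rw [div_mul_eq_mul_div, one_mul, le_div_iff₀ (by positivity)] at e2
      linarith
  obtain ⟨T₂, hT₂⟩ := eventually_atTop.1 hev
  refine ⟨max T₂ 4, le_max_right _ _, ?_⟩
  intro T hT a ha hom s hs
  obtain ⟨g1, g2, g3, g4, g5, g6⟩ := hT₂ T ((le_max_left _ _).trans hT)
  have hT0 : 0 < T := by linarith
  have hTc : 1 ≤ T ^ c := Real.one_le_rpow (by linarith) hc.le
  set c₀ : ℂ := 3 + T * I with hc₀
  have ha0 : a ≠ 0 := by
    rw [← norm_pos_iff, ha]
    positivity
  have hre : ∀ w : ℂ, w.re = (w - c₀).re + 3 := by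
    intro w
    simp [hc₀]
  have him : ∀ w : ℂ, w.im = (w - c₀).im + T := by
    intro w
    simp [hc₀]
  have hright : ∀ w : ℂ, ‖w - c₀‖ ≤ 1 → ‖riemannZeta w‖ ≤ C₂ := by
    intro w hw
    apply h₂
    rw [hre]
    have := abs_le.1 ((Complex.abs_re_le_norm (w - c₀)).trans hw)
    linarith [this.1]
  by_cases hs1 : ‖s - c₀‖ ≤ 1 / 2
  · refine (hright s (by linarith)).trans ?_
    linarith
  push Not at hs1
  have hzd : ∀ w : ℂ, ‖w - c₀‖ < 5 / 2 → DifferentiableAt ℂ riemannZeta w := by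
    intro w hw
    apply differentiableAt_riemannZeta
    rintro rfl
    have := abs_le.1 ((Complex.abs_im_le_norm (1 - c₀)).trans hw.le)
    simp [hc₀] at this
    linarith
  have hzcrude : ∀ w : ℂ, ‖w - c₀‖ < 5 / 2 → ‖riemannZeta w‖ ≤ 2 * C₁ * T := by
    intro w hw
    have e1 := abs_le.1 ((Complex.abs_im_le_norm (w - c₀)).trans hw.le)
    have e2 := abs_le.1 ((Complex.abs_re_le_norm (w - c₀)).trans hw.le)
    have e3 := h₁ w (by rw [hre]; linarith [e2.1]) (by rw [him]; linarith [e1.1])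
    rw [Real.rpow_one, him] at e3
    nlinarith [e1.2]
  set g : ℂ → ℂ := fun w => 1 - riemannZeta w / a with hg
  have hgd : ∀ w : ℂ, ‖w - c₀‖ < 5 / 2 → HasDerivAt g (-(deriv riemannZeta w / a)) w := by
    intro w hw
    exact ((hzd w hw).hasDerivAt.div_const a).const_sub 1
  have hlow : ∀ w : ℂ, ‖w - c₀‖ ≤ 1 → 1 / 2 ≤ ‖g w‖ := by
    intro w hw
    have e1 : ‖riemannZeta w / a‖ ≤ 1 / 2 := by
      rw [norm_div, ha, div_le_iff₀ (by positivity)]
      linarith [hright w hw]
    have e2 := norm_sub_norm_le (1 : ℂ) (riemannZeta w / a)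
    rw [norm_one] at e2
    change _ ≤ ‖1 - riemannZeta w / a‖
    linarith
  have hcc : ‖c₀ - c₀‖ ≤ 1 := by simp
  have hupc : ‖g c₀‖ ≤ 3 / 2 := by
    have e1 : ‖riemannZeta c₀ / a‖ ≤ 1 / 2 := by
      rw [norm_div, ha, div_le_iff₀ (by positivity)]
      linarith [hright c₀ hcc]
    have e2 := norm_sub_le (1 : ℂ) (riemannZeta c₀ / a)
    rw [norm_one] at e2
    change ‖1 - riemannZeta c₀ / a‖ ≤ _
    linarith
  have hRR : ∀ w ∈ ball c₀ R, ‖w - c₀‖ < 5 / 2 - d := by
    intro w hw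
    rw [mem_ball, Complex.dist_eq, hR] at hw
    exact hw
  have hnv := nonvanish (g := g) (c := c₀) (R₂ := R₂) (R₃ := R₃) (R := R)
    (M := 2 * Real.log T) (m := 4 * C₂ / T ^ c) (N := 20 / d * Real.log T) (by linarith)
    (by linarith) (by linarith) (by
      have := Real.log_pos (show (1 : ℝ) < T by linarith)
      linarith) (by positivity) (by
      rw [div_le_iff₀ (by positivity)]
      linarith) g3 (by
      have e1 : R - R₃ = d / 2 := by rw [hR, hR₃]; ring
      have e2 := Real.log_pos (show (1 : ℝ) < T by linarith)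
      rw [e1, div_le_iff₀ (by positivity)]
      have e3 : 20 / d * Real.log T * (d / 2) = 10 * Real.log T := by
        field_simp
        ring
      rw [e3]
      nlinarith) (fun w hw => (hgd w (by linarith [hRR w hw])).differentiableAt) (by
      intro w hw h0
      apply hom w (hRR w hw)
      have e1 : riemannZeta w / a = 1 := by
        have : 1 - riemannZeta w / a = 0 := h0
        linear_combination -this
      rwa [div_eq_one_iff_eq ha0] at e1) (by
      intro w hw
      have e1 := hzcrude w (by linarith [hRR w hw])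
      have e2 : Real.exp (2 * Real.log T) = T ^ 2 := by
        rw [two_mul, Real.exp_add, Real.exp_log hT0]
        ring
      have e3 : ‖riemannZeta w / a‖ ≤ 2 * C₁ * T := by
        rw [norm_div, ha, div_le_iff₀ (by positivity)]
        have : 0 ≤ 2 * C₁ * T := by positivity
        nlinarith
      have e4 := norm_sub_le (1 : ℂ) (riemannZeta w / a)
      rw [norm_one] at e4
      have e5 := hlow c₀ hcc
      have e6 : 0 < T ^ 2 := by positivity
      rw [e2]
      change ‖1 - riemannZeta w / a‖ ≤ _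
      nlinarith) (by
      intro w hw
      rw [mem_closedBall, Complex.dist_eq] at hw
      have e1 : ‖deriv riemannZeta w‖ ≤ C₂ / (1 / 2) := by
        refine Complex.norm_deriv_le_of_forall_mem_sphere_norm_le (by norm_num) ?_ ?_
        · have e2 : ∀ z ∈ closure (ball w (1 / 2 : ℝ)), DifferentiableAt ℂ riemannZeta z := by
            intro z hz
            rw [closure_ball _ (by norm_num), mem_closedBall, Complex.dist_eq] at hz
            apply hzd
            have e3 : z - c₀ = (z - w) + (w - c₀) := by ring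
            rw [e3]
            refine (norm_add_le _ _).trans_lt ?_
            linarith
          exact ⟨fun z hz => (e2 z (subset_closure hz)).differentiableWithinAt,
            fun z hz => (e2 z hz).continuousAt.continuousWithinAt⟩
        · intro z hz
          rw [mem_sphere, Complex.dist_eq] at hz
          apply hright
          have e3 : z - c₀ = (z - w) + (w - c₀) := by ring
          rw [e3]
          refine (norm_add_le _ _).trans ?_
          linarith
      have e2 := hlow w (by linarith)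
      rw [(hgd w (by linarith)).deriv, norm_neg, norm_div, ha]
      calc ‖deriv riemannZeta w‖ / T ^ c ≤ (C₂ / (1 / 2)) / T ^ c := by gcongr
        _ = 4 * C₂ / T ^ c * (1 / 2) := by ring
        _ ≤ 4 * C₂ / T ^ c * ‖g w‖ := by gcongr) (w := s) hs1.le (by rw [hR₂]; exact hs)
  have e1 : 4 * C₂ / T ^ c / 2 = 2 * C₂ / T ^ c := by ring
  rw [← hκ, e1] at hnv
  have e2 : ‖g s‖ ≤ 5 := by
    refine hnv.trans ?_
    have e3 : Real.exp ((2 * C₂ / T ^ c) ^ κ * (20 / d * Real.log T)) ≤ Real.exp 1 :=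
      Real.exp_le_exp.2 g4
    have e4 := Real.exp_one_lt_d9
    have e5 := norm_nonneg (g c₀)
    have e6 := Real.exp_pos ((2 * C₂ / T ^ c) ^ κ * (20 / d * Real.log T))
    nlinarith
  have e3 : riemannZeta s = a * (1 - g s) := by
    simp only [hg]
    field_simp
    ring
  rw [e3, norm_mul, ha, mul_comm]
  have e4 := norm_sub_le (1 : ℂ) (g s)
  rw [norm_one] at e4
  nlinarith

/-- An entire function of growth `r ^ β` on a sequence of circles is a polynomial of degree
`≤ β`. -/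
lemma poly_of_growth {Φ : ℂ → ℂ} (hΦ : Differentiable ℂ Φ) {K β : ℝ} {n : ℕ} (hn : 1 ≤ n)
    (hβ : β < n)
    (h : ∀ r₀ : ℝ, ∃ r : ℝ, r₀ ≤ r ∧ 1 ≤ r ∧ ∀ z : ℂ, ‖z‖ = r → ‖Φ z‖ ≤ K * r ^ β) :
    ∃ P : ℂ[X], P.natDegree < n ∧ ∀ z, Φ z = P.eval z := by
  have hK : 0 ≤ K := by
    obtain ⟨r, -, h1, h2⟩ := h 1
    have e1 := (norm_nonneg _).trans (h2 (r : ℂ) (by
      rw [Complex.norm_real, Real.norm_eq_abs, abs_of_nonneg (by linarith)]))
    have e2 : 0 < r ^ β := Real.rpow_pos_of_pos (by linarith) β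
    by_contra hc
    push Not at hc
    nlinarith
  have hz : ∀ m : ℕ, n ≤ m → iteratedDeriv m Φ 0 = 0 := by
    intro m hm
    have hm' : (n : ℝ) ≤ m := by exact_mod_cast hm
    have hg : 0 < (m : ℝ) - β := by linarith
    rw [← norm_le_zero_iff]
    apply le_of_forall_pos_le_add
    intro ε hε
    rw [zero_add]
    have h1 := (tendsto_rpow_atTop hg).eventually_ge_atTop ((m.factorial * K) / ε)
    obtain ⟨r₀, hr₀⟩ := eventually_atTop.1 h1
    obtain ⟨r, hr, hr1, hr2⟩ := h r₀
    have h2 := hr₀ r hr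
    have hrpos : 0 < r := by linarith
    have h3 := Complex.norm_iteratedDeriv_le_of_forall_mem_sphere_norm_le (c := 0) (R := r)
      (C := K * r ^ β) (f := Φ) m hrpos hΦ.diffContOnCl (fun z hz => hr2 z (by simpa using hz))
    refine h3.trans ?_
    rw [div_le_iff₀ hε] at h2
    rw [div_le_iff₀ (by positivity)]
    have h4 : r ^ m = r ^ ((m : ℝ) - β) * r ^ β := by
      rw [← Real.rpow_add hrpos]
      simp
    have h5 : 0 < r ^ β := by positivity
    rw [h4]
    nlinarith
  refine ⟨∑ m ∈ Finset.range n,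
    Polynomial.C (((m.factorial : ℂ))⁻¹ * iteratedDeriv m Φ 0) * X ^ m, ?_, ?_⟩
  · have h1 : (∑ m ∈ Finset.range n,
        Polynomial.C (((m.factorial : ℂ))⁻¹ * iteratedDeriv m Φ 0) * X ^ m :
          ℂ[X]).natDegree ≤ n - 1 := by
      apply Polynomial.natDegree_sum_le_of_forall_le
      intro i hi
      refine (Polynomial.natDegree_C_mul_X_pow_le _ _).trans ?_
      have := Finset.mem_range.1 hi
      omega
    omega
  · intro z
    have h1 := Complex.hasSum_taylorSeries_of_entire hΦ 0 z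
    have h2 : HasSum (fun m : ℕ => ((m.factorial : ℂ))⁻¹ • (z - 0) ^ m • iteratedDeriv m Φ 0)
        (∑ m ∈ Finset.range n, ((m.factorial : ℂ))⁻¹ • (z - 0) ^ m • iteratedDeriv m Φ 0) :=
      hasSum_sum_of_ne_finset_zero (by
        intro m hm
        rw [Finset.mem_range, not_lt] at hm
        simp only [hz m hm, smul_zero])
    rw [h1.unique h2, Polynomial.eval_finsetSum]
    apply Finset.sum_congr rfl
    intro m _
    simp only [sub_zero, smul_eq_mul, Polynomial.eval_mul, Polynomial.eval_C,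
      Polynomial.eval_pow, Polynomial.eval_X]
    ring

/-- Polynomial growth of `Φ(ζ(s))` to the right of the critical line bounds zeta there, unless `Φ`
is a polynomial of small degree. -/
theorem bound_of_entire {Φ : ℂ → ℂ} (hΦ : Differentiable ℂ Φ) {n : ℕ} (hn : 1 ≤ n)
    (hdeg : ∀ P : ℂ[X], P.natDegree < n → ∃ z, Φ z ≠ P.eval z) {B d K T₁ : ℝ} (hB : 0 ≤ B)
    (hd : 0 < d) (hd1 : d < 1 / 2) (hK : 1 ≤ K) (hT₁ : 1 ≤ T₁)
    (hb : ∀ s : ℂ, 1 / 2 + d ≤ s.re → T₁ ≤ s.im → ‖Φ (riemannZeta s)‖ ≤ K * s.im ^ B) {c : ℝ}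
    (hc : 0 < c) (hcB : B < n * c) : BoundOn (1 / 2 + 2 * d) c := by
  obtain ⟨T₂, hT₂, hcov⟩ := cover hc hd hd1
  obtain ⟨C₂, hC₂, h₂⟩ := Pool.Agent.Lib.ZetaCrude.norm_zeta_le_of_two_le
  by_cases hcase : ∃ T₃ : ℝ, ∀ T : ℝ, T₃ ≤ T → ∃ a : ℂ, ‖a‖ = T ^ c ∧
      ∀ s : ℂ, ‖s - (3 + T * I)‖ < 5 / 2 - d → riemannZeta s ≠ a
  · obtain ⟨T₃, hT₃⟩ := hcase
    refine ⟨6 + C₂, max T₂ T₃, by linarith, by linarith [le_max_left T₂ T₃], ?_⟩
    intro s hs ht
    have ht2 : T₂ ≤ s.im := (le_max_left _ _).trans ht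
    have hsc : 1 ≤ s.im ^ c := Real.one_le_rpow (by linarith) hc.le
    by_cases hs2 : 2 ≤ s.re
    · refine (h₂ s hs2).trans ?_
      nlinarith
    · push Not at hs2
      obtain ⟨a, ha, hom⟩ := hT₃ s.im ((le_max_right _ _).trans ht)
      refine (hcov s.im ht2 a ha hom s ?_).trans (by nlinarith)
      have e1 : s - (3 + s.im * I) = ((s.re - 3 : ℝ) : ℂ) := by
        apply Complex.ext <;> simp
      rw [e1, Complex.norm_real, Real.norm_eq_abs, abs_of_nonpos (by linarith)]
      linarith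
  · push Not at hcase
    exfalso
    obtain ⟨P, hP, hP'⟩ := poly_of_growth hΦ (K := K * 2 ^ B) (β := B / c) hn (by
      rw [div_lt_iff₀ hc]
      exact hcB) (by
      intro r₀
      have h1 := (tendsto_rpow_atTop hc).eventually_ge_atTop r₀
      obtain ⟨T₄, hT₄⟩ := eventually_atTop.1 h1
      obtain ⟨T, hT, hT'⟩ := hcase (max T₄ (T₁ + 3))
      have e1 : T₄ ≤ T := (le_max_left _ _).trans hT
      have e2 : T₁ + 3 ≤ T := (le_max_right _ _).trans hT
      refine ⟨T ^ c, hT₄ T e1, Real.one_le_rpow (by linarith) hc.le, ?_⟩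
      intro z hz
      obtain ⟨s, hs, hsz⟩ := hT' z hz
      have e3 := abs_le.1 ((Complex.abs_im_le_norm (s - (3 + T * I))).trans hs.le)
      have e4 := abs_le.1 ((Complex.abs_re_le_norm (s - (3 + T * I))).trans hs.le)
      simp only [Complex.sub_im, Complex.add_im, Complex.mul_im, Complex.ofReal_re,
        Complex.ofReal_im, Complex.I_re, Complex.I_im, mul_one, mul_zero, add_zero, zero_add,
        Complex.im_ofNat] at e3
      simp only [Complex.sub_re, Complex.add_re, Complex.mul_re, Complex.ofReal_re,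
        Complex.ofReal_im, Complex.I_re, Complex.I_im, mul_one, mul_zero, sub_zero, add_zero,
        Complex.re_ofNat] at e4
      have e5 := hb s (by linarith [e4.1]) (by linarith [e3.1])
      rw [hsz] at e5
      refine e5.trans ?_
      have e6 : (T ^ c) ^ (B / c) = T ^ B := by
        rw [← Real.rpow_mul (by linarith)]
        congr 1
        field_simp
      have e7 : s.im ^ B ≤ (2 * T) ^ B :=
        Real.rpow_le_rpow (by linarith [e3.1]) (by linarith [e3.2]) hB
      rw [Real.mul_rpow (by norm_num) (by linarith)] at e7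
      rw [e6, mul_assoc]
      exact mul_le_mul_of_nonneg_left e7 (by linarith))
    obtain ⟨z, hz⟩ := hdeg P hP
    exact hz (hP' z)

/-- **From the one-sided bound of the mean to the growth of zeta.** -/
theorem zeta_of_mean {Φ : ℂ → ℂ} (hΦ : Differentiable ℂ Φ) {K : ℝ} (hK : Grow Φ K) {n : ℕ}
    (hn : 1 ≤ n) (hdeg : ∀ P : ℂ[X], P.natDegree < n → ∃ z, Φ z ≠ P.eval z) {ω : ℂ}
    (hω : ‖ω‖ = 1) {B C : ℝ} (hB : 0 ≤ B) (h : ∀ T : ℝ, 0 ≤ T →
      (ω * ∫ t in (0 : ℝ)..T, FE Φ (1 / 2 + t * I)).re ≤ C * (1 + T) ^ B) {c : ℝ} (hc : 0 < c)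
    (hcB : B < n * c) : ∀ ε > 0, BoundOn (1 / 2) (c + ε) := by
  apply boundOn_half_of_forall hc.le
  intro a ha
  have hd : 0 < min (a / 2) (1 / 4) := lt_min (by linarith) (by norm_num)
  have hd1 : min (a / 2) (1 / 4) ≤ 1 / 4 := min_le_right _ _
  have hd2 : min (a / 2) (1 / 4) ≤ a / 2 := min_le_left _ _
  obtain ⟨K₁, T₁, hK₁, hT₁, hb⟩ := growth_of_mean hΦ hK hω hB h hd (by linarith)
  exact (bound_of_entire hΦ hn hdeg hB hd (by linarith) hK₁ hT₁ hb hc hcB).mono (by linarith)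
    le_rfl

/-- The same from a two-sided bound, for `Φ` of double exponential growth. -/
theorem zeta_of_mean2 {Φ : ℂ → ℂ} (hΦ : Differentiable ℂ Φ) {K : ℝ} (hK : Grow2 Φ K) {n : ℕ}
    (hn : 1 ≤ n) (hdeg : ∀ P : ℂ[X], P.natDegree < n → ∃ z, Φ z ≠ P.eval z)
    {B C : ℝ} (hB : 0 ≤ B) (h : ∀ T : ℝ, 0 ≤ T →
      ‖∫ t in (0 : ℝ)..T, FE Φ (1 / 2 + t * I)‖ ≤ C * (1 + T) ^ B) {c : ℝ} (hc : 0 < c)
    (hcB : B < n * c) : ∀ ε > 0, BoundOn (1 / 2) (c + ε) := by
  apply boundOn_half_of_forall hc.le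
  intro a ha
  have hd : 0 < min (a / 2) (1 / 4) := lt_min (by linarith) (by norm_num)
  have hd1 : min (a / 2) (1 / 4) ≤ 1 / 4 := min_le_right _ _
  have hd2 : min (a / 2) (1 / 4) ≤ a / 2 := min_le_left _ _
  obtain ⟨K₁, T₁, hK₁, hT₁, hb⟩ := growth_of_mean2 hΦ hK hB h hd (by linarith)
  exact (bound_of_entire hΦ hn hdeg hB hd (by linarith) hK₁ hT₁ hb hc hcB).mono (by linarith)
    le_rfl

end Pool.Agent.HolMom
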