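import Pool.Agent.HolMom.Cover

/-!
# A transcendental entire function whose value at zeta has a mean value
-/

set_option autoImplicit false

open Complex Set Metric MeasureTheory Filter Topology Polynomial
open Pool.Agent.Lib.ZetaLine Pool.Agent.Lib.ZetaConv

namespace Pool.Agent.HolMom

/-- The weights. -/
noncomputable def wt (D : ℕ → ℝ) (n : ℕ) : ℝ := ((2 * n).factorial * D n)⁻¹

/-- The entire function with these coefficients. -/
noncomputable def ent (D : ℕ → ℝ) (z : ℂ) : ℂ := ∑' n : ℕ, (wt D n : ℂ) * z ^ n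

section

variable {D : ℕ → ℝ}

lemma wt_pos (hD : ∀ n, 1 ≤ D n) (n : ℕ) : 0 < wt D n := by
  have := hD n
  unfold wt
  positivity

lemma wt_le (hD : ∀ n, 1 ≤ D n) (n : ℕ) : wt D n ≤ ((2 * n).factorial : ℝ)⁻¹ := by
  have := hD n
  have h1 : (0 : ℝ) < (2 * n).factorial := by positivity
  unfold wt
  apply inv_anti₀ h1
  nlinarith

lemma wt_mul (hD : ∀ n, 1 ≤ D n) (n : ℕ) : wt D n * D n = ((2 * n).factorial : ℝ)⁻¹ := by
  have := hD n
  have h1 : (0 : ℝ) < (2 * n).factorial := by positivity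
  unfold wt
  field_simp

lemma hasSum_cosh_sqrt {x : ℝ} (hx : 0 ≤ x) :
    HasSum (fun n : ℕ => ((2 * n).factorial : ℝ)⁻¹ * x ^ n) (Real.cosh (Real.sqrt x)) := by
  have h1 := Real.hasSum_cosh (Real.sqrt x)
  have h2 : (fun n : ℕ => Real.sqrt x ^ (2 * n) / ((2 * n).factorial : ℝ)) =
      fun n : ℕ => ((2 * n).factorial : ℝ)⁻¹ * x ^ n := by
    funext n
    rw [pow_mul, Real.sq_sqrt hx]
    ring
  rwa [h2] at h1

lemma term_le (hD : ∀ n, 1 ≤ D n) (n : ℕ) {z : ℂ} {R : ℝ} (hz : ‖z‖ ≤ R) :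
    ‖(wt D n : ℂ) * z ^ n‖ ≤ ((2 * n).factorial : ℝ)⁻¹ * R ^ n := by
  rw [norm_mul, norm_pow, Complex.norm_real, Real.norm_eq_abs, abs_of_pos (wt_pos hD n)]
  have := wt_le hD n
  gcongr

lemma ent_hasSum (hD : ∀ n, 1 ≤ D n) (z : ℂ) :
    HasSum (fun n : ℕ => (wt D n : ℂ) * z ^ n) (ent D z) := by
  have h1 : Summable fun n : ℕ => (wt D n : ℂ) * z ^ n :=
    Summable.of_norm_bounded (hasSum_cosh_sqrt (norm_nonneg z)).summable
      fun n => term_le hD n le_rfl
  exact h1.hasSum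

lemma ent_diff (hD : ∀ n, 1 ≤ D n) : Differentiable ℂ (ent D) := by
  intro z
  obtain ⟨R, hR⟩ : ∃ R : ℝ, R = ‖z‖ + 1 := ⟨_, rfl⟩
  have hR0 : 0 ≤ R := by
    have := norm_nonneg z
    linarith
  have h1 : DifferentiableOn ℂ (fun w => ∑' n : ℕ, (wt D n : ℂ) * w ^ n) (ball 0 R) := by
    refine differentiableOn_tsum_of_summable_norm (hasSum_cosh_sqrt hR0).summable ?_
      isOpen_ball ?_
    · intro n
      fun_prop
    · intro n w hw
      rw [mem_ball_zero_iff] at hw
      exact term_le hD n hw.le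
  exact h1.differentiableAt (isOpen_ball.mem_nhds (by rw [mem_ball_zero_iff]; linarith))

lemma ent_grow (hD : ∀ n, 1 ≤ D n) : Grow (ent D) 1 := by
  intro z
  have h1 := tsum_of_norm_bounded (hasSum_cosh_sqrt (norm_nonneg z))
    (fun n => term_le hD n (le_refl ‖z‖))
  rw [one_mul]
  refine h1.trans ?_
  rw [Real.cosh_eq]
  have h2 : Real.exp (-Real.sqrt ‖z‖) ≤ Real.exp (Real.sqrt ‖z‖) :=
    Real.exp_le_exp.2 (by linarith [Real.sqrt_nonneg ‖z‖])
  linarith

lemma ent_ne_poly (hD : ∀ n, 1 ≤ D n) (P : ℂ[X]) : ∃ z, ent D z ≠ P.eval z := by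
  by_contra hcon
  push Not at hcon
  obtain ⟨K, hK, hK'⟩ := poly_upper P
  set d := P.natDegree with hd
  have hw := wt_pos hD (d + 1)
  set w := wt D (d + 1) with hwdef
  obtain ⟨x, hx⟩ : ∃ x : ℝ, x = K * 2 ^ d / w + 1 := ⟨_, rfl⟩
  have hx1 : 1 ≤ x := by
    have : 0 ≤ K * 2 ^ d / w := by positivity
    linarith
  have hx0 : 0 < x := by linarith
  have hs := ent_hasSum hD (x : ℂ)
  have hre : HasSum (fun n : ℕ => wt D n * x ^ n) (ent D x).re := by
    have := Complex.hasSum_re hs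
    convert this using 1
    funext n
    rw [← Complex.ofReal_pow, ← Complex.ofReal_mul, Complex.ofReal_re]
  have h1 : w * x ^ (d + 1) ≤ (ent D x).re := by
    refine le_hasSum hre (d + 1) fun j _ => ?_
    have := wt_pos hD j
    positivity
  have h2 := h1.trans (Complex.re_le_norm _)
  rw [hcon] at h2
  have h3 := hK' (x : ℂ)
  rw [Complex.norm_real, Real.norm_eq_abs, abs_of_pos hx0] at h3
  have h4 : (1 + x) ^ d ≤ 2 ^ d * x ^ d := by
    rw [← mul_pow]
    gcongr
    linarith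
  have h5 : w * x ^ (d + 1) ≤ K * (2 ^ d * x ^ d) := by
    refine h2.trans (h3.trans ?_)
    gcongr
  have h6 : 0 < x ^ d := by positivity
  have h7 : w * x ≤ K * 2 ^ d := by
    rw [pow_succ] at h5
    have e1 : w * (x ^ d * x) = (w * x) * x ^ d := by ring
    have e2 : K * (2 ^ d * x ^ d) = (K * 2 ^ d) * x ^ d := by ring
    rw [e1, e2] at h5
    exact le_of_mul_le_mul_right h5 h6
  have h8 : w * x = K * 2 ^ d + w := by
    rw [hx]
    field_simp
  linarith

/-- The mean of `Φ(ζ)`. -/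
theorem ent_mean (hD : ∀ n, 1 ≤ D n) {b : ℝ → ℝ}
    (h : ∀ (n : ℕ) (T : ℝ), 0 ≤ T →
      ‖∫ t in (0 : ℝ)..T, FE (fun z => z ^ n) (1 / 2 + t * I)‖ ≤ D n * b T) (T : ℝ)
    (hT : 0 ≤ T) :
    ‖∫ t in (0 : ℝ)..T, FE (ent D) (1 / 2 + t * I)‖ ≤ Real.cosh (Real.sqrt 1) * b T := by
  obtain ⟨M, hM⟩ := (isCompact_Icc (a := (0 : ℝ)) (b := T)).exists_bound_of_continuousOn
    zeta_line_cont.continuousOn
  have hM0 : 0 ≤ M := (norm_nonneg _).trans (hM 0 ⟨le_rfl, hT⟩)
  have hsum := (hasSum_cosh_sqrt hM0).summable.add (hasSum_cosh_sqrt zero_le_one).summable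
  have hpow : ∀ n : ℕ, Continuous fun t : ℝ => FE (fun z => z ^ n) (1 / 2 + t * I) :=
    fun n => FE_line_cont (by fun_prop)
  have key := intervalIntegral.hasSum_integral_of_dominated_convergence (a := 0) (b := T)
    (μ := volume) (F := fun n t => (wt D n : ℂ) * FE (fun z => z ^ n) (1 / 2 + t * I))
    (f := fun t => FE (ent D) (1 / 2 + t * I))
    (fun n _ => ((2 * n).factorial : ℝ)⁻¹ * M ^ n + ((2 * n).factorial : ℝ)⁻¹ * 1 ^ n)
    (fun n => (continuous_const.mul (hpow n)).aestronglyMeasurable) (by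
      intro n
      filter_upwards with t ht
      rw [uIoc_of_le hT] at ht
      have e1 := hM t ⟨ht.1.le, ht.2⟩
      unfold FE
      rw [mul_sub]
      refine (norm_sub_le _ _).trans ?_
      exact add_le_add (term_le hD n e1) (term_le hD n (by simp))) (by
      filter_upwards with t _
      exact hsum) (by
      exact intervalIntegrable_const) (by
      filter_upwards with t _
      unfold FE
      have e1 := (ent_hasSum hD (riemannZeta (1 / 2 + t * I))).sub (ent_hasSum hD 1)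
      convert e1 using 1
      funext n
      ring)
  have h2 : ∀ n : ℕ, ‖∫ t in (0 : ℝ)..T, (wt D n : ℂ) * FE (fun z => z ^ n) (1 / 2 + t * I)‖ ≤
      ((2 * n).factorial : ℝ)⁻¹ * 1 ^ n * b T := by
    intro n
    rw [intervalIntegral.integral_const_mul, norm_mul, Complex.norm_real, Real.norm_eq_abs,
      abs_of_pos (wt_pos hD n), one_pow, mul_one, ← wt_mul hD n, mul_assoc]
    exact mul_le_mul_of_nonneg_left (h n T hT) (wt_pos hD n).le
  have h3 := tsum_of_norm_bounded ((hasSum_cosh_sqrt zero_le_one).mul_right (b T)) h2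
  rwa [key.tsum_eq] at h3

end

end Pool.Agent.HolMom
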